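import Pool.Agent.P.MP_fc15d7_nt.HZ.Base

/-! The steps of the proof that almost all orbits of `y ↦ ⌊3 y / 2⌋` are normal up to the time
`(2 - ε) log₂ y`. -/

set_option autoImplicit false

namespace Pool.Agent.P.MP_fc15d7_nt.HZ

open Finset Filter Topology

/-! ### Entropy in a finite abelian group -/

-- deps:
def S_MONO : Prop :=
  ∀ (G : Type) [AddCommGroup G] [Fintype G] (A p : GA G), Pm A → Pm p → HH p ≤ HH (A * p)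

-- deps:
def S_SUB : Prop :=
  ∀ (G : Type) [AddCommGroup G] [Fintype G] (a : G) (S X : GA G), Pm S → Pm X →
    HH (ap 2 a * (S * X)) - HH (S * X) ≤ HH (ap 2 a * X) - HH X

-- deps:
def S_CONT : Prop :=
  ∀ (G : Type) [AddCommGroup G] [Fintype G] (p q : GA G) (Q : ℕ), 1 ≤ Q → Pm p → Pm q →
    n1 (p - q) ≤ 2 / Q → HH p ≤ HH q + er G Q

-- deps:
def S_SD : Prop :=
  ∀ a b c : ℝ, 0 ≤ a → 0 ≤ b → 0 ≤ c →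
    (1 - Real.log 2 / Real.log 3) * (Real.negMulLog a + Real.negMulLog b + Real.negMulLog c) +
        3 * (Real.log 2 / Real.log 3) * Real.negMulLog ((a + b + c) / 3) ≤
      Real.negMulLog ((a + b) / 2) + Real.negMulLog ((b + c) / 2) + Real.negMulLog ((c + a) / 2)

-- deps: SD CONT
def S_STEP : Prop :=
  ∀ (G : Type) [AddCommGroup G] [Fintype G] (a : G) (Z : GA G) (Q : ℕ), 1 ≤ Q → Pm Z →
    n1 (e (3 • a) * Z - Z) ≤ 2 / Q →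
    (1 - lam) * HH Z + lam * HH (ap 3 a * Z) - er G Q ≤ HH (ap 2 a * Z)

-- deps:
def S_COST : Prop :=
  ∀ (G : Type) [AddCommGroup G] [Fintype G] (a : G) (p : GA G) (Q : ℕ), 1 ≤ Q → Pm p →
    HH (ap Q a * p) ≤ HH p + Real.log Q

-- deps:
def S_INV : Prop :=
  ∀ (G : Type) [AddCommGroup G] [Fintype G] (a : ℕ → G) (Q t : ℕ), 1 ≤ Q →
    (∀ s, 3 • a (s + 1) = 2 • a s) →
    n1 (e (3 • a t) * (pr 3 t a * ap Q (3 • a 0)) - pr 3 t a * ap Q (3 • a 0)) ≤ 2 / Q ∧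
      n1 (pr 2 t a * (pr 3 t a * ap Q (3 • a 0)) - pr 3 t a * ap Q (3 • a 0)) ≤ 2 / Q

-- deps: MONO SUB CONT STEP COST INV
def S_CELL : Prop :=
  ∀ (G : Type) [AddCommGroup G] [Fintype G] (a : ℕ → G) (n Q : ℕ) (p : GA G), 1 ≤ Q →
    (∀ s, 3 • a (s + 1) = 2 • a s) → Pm p →
    (1 - lam) * HH p + lam * HH (pr 3 n a * p) - (Real.log Q + 3 * n * er G Q) ≤
      HH (pr 2 n a * p)

-- deps:
def S_PERC : Prop :=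
  ∀ (G : Type) [AddCommGroup G] [Fintype G] (ι : Type) (J : Finset ι) (T U : ι → GA G) (p : GA G)
    (l E b ρ k : ℝ), 0 ≤ l → l ≤ 1 → 0 ≤ ρ → k < l * J.card → Pm p →
    (∀ j ∈ J, Pm (T j)) → (∀ j ∈ J, Pm (U j)) →
    (∀ j ∈ J, ∀ q : GA G, Pm q → (1 - l) * HH q + l * HH (U j * q) - E ≤ HH (T j * q)) →
    (∀ K ⊆ J, b + ρ * min (K.card : ℝ) k ≤ HH ((∏ j ∈ K, U j) * p)) →
    b + ρ * (k - J.card / (16 * (l * J.card - k))) - J.card * E ≤ HH ((∏ j ∈ J, T j) * p)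

-- deps:
def S_FLAT : Prop :=
  ∀ (G : Type) [AddCommGroup G] [Fintype G] (ι : Type) [Fintype ι] (R : ι → ℕ) (b : ι → G),
    (∀ i, 1 ≤ R i) →
    (∀ d d' : ι → ℕ, (∀ i, d i < R i) → (∀ i, d' i < R i) →
      ∑ i, d i • b i = ∑ i, d' i • b i → d = d') →
    ∑ i, Real.log (R i) ≤ HH (∏ i, ap (R i) (b i))

-- deps:
def S_FANO : Prop :=
  ∀ (G : Type) [AddCommGroup G] [Fintype G] (p : GA G) (B : Finset G) (τ : ℝ), Pm p →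
    (B.card : ℝ) * Real.exp τ ≤ Fintype.card G →
    τ * ∑ x ∈ B, co p x ≤ Real.log (Fintype.card G) - HH p + 1

-- deps:
def S_GAPS : Prop :=
  ∀ (G : Type) [AddCommGroup G] [Fintype G] (a : ℕ → G) (m g q L : ℕ), m * (g + 1) * q ≤ L →
    ∃ A : GA G, Pm A ∧
      pr 2 L a = A * ∏ j : Fin m, pr 2 (g * q) fun t => a (((j : ℕ) * (g + 1) + 1) * q + t)

/-! ### Unions of a bounded number of cells -/

-- deps: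
def S_DIG : Prop :=
  ∀ (n : ℕ) (δ : ℕ → ℤ), (∀ t < n, |δ t| ≤ 2) →
    |∑ t ∈ range n, δ t * 2 ^ t * 3 ^ (n - 1 - t)| ≤ 2 * 3 ^ n ∧
      (∑ t ∈ range n, δ t * 2 ^ t * 3 ^ (n - 1 - t) = 0 → ∀ t < n, δ t = 0)

-- deps:
-- imports: Pool.Agent.P.MP_fc15d7_nt.Subspace
def S_MDS : Prop :=
  ∀ (m g k : ℕ) (l ν : ℝ), ((m * (g + 1) : ℕ) : ℝ) ≤ l →
    l * Real.log 2 + k * g * Real.log 3 < ν * Real.log 2 →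
    ∃ q0 : ℕ, ∀ q ≥ q0, ∀ (N : ℕ) (t : ℤ) (c : Fin m → ℤ), ν * q ≤ N → |(t : ℝ)| ≤ 2 ^ (l * q) →
      (∀ j, |c j| ≤ 2 * 3 ^ (g * q)) → (univ.filter (c · ≠ 0)).card ≤ k →
      (2 : ℤ) ^ N ∣ 3 ^ (m * (g + 1) * q) * t +
        ∑ j : Fin m, 2 ^ (((j : ℕ) * (g + 1) + 1) * q) * 3 ^ ((m - 1 - j) * (g + 1) * q) * c j →
      t = 0 ∧ ∀ j, c j = 0

-- deps: MDS FLAT DIG MONO
def S_INJ : Prop :=
  ∀ (m g k : ℕ) (l ν : ℝ), ((m * (g + 1) : ℕ) : ℝ) ≤ l →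
    l * Real.log 2 + k * g * Real.log 3 < ν * Real.log 2 →
    ∃ q0 : ℕ, ∀ q ≥ q0, ∀ L N : ℕ, ν * q ≤ N → (L : ℝ) ≤ l * q → ∀ K : Finset (Fin m),
      L * Real.log 2 + (g * q * Real.log 3) * min (K.card : ℝ) k ≤
        HH ((∏ j ∈ K, pr 3 (g * q) fun t => al N (((j : ℕ) * (g + 1) + 1) * q + t)) *
          ap (2 ^ L) 1)

-- deps: CELL PERC INJ GAPS MONO
def S_ENTA : Prop :=
  ∀ (m g k : ℕ) (l ν : ℝ), ((m * (g + 1) : ℕ) : ℝ) ≤ l →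
    l * Real.log 2 + k * g * Real.log 3 < ν * Real.log 2 → (k : ℝ) < lam * m →
    ∃ q0 : ℕ, ∀ q ≥ q0, ∀ L N Q : ℕ, 1 ≤ Q → m * (g + 1) * q ≤ L → (L : ℝ) ≤ l * q → ν * q ≤ N →
      L * Real.log 2 + (g * q * Real.log 3) * (k - m / (16 * (lam * m - k))) -
        m * (Real.log Q + 3 * (g * q) * ((2 + N * Real.log 2 + Real.log Q) / Q)) ≤ HH (law L N)

-- deps: ENTA
def S_ENT : Prop :=
  ∀ c ε : ℝ, 0 < c → c < 1 → 0 < ε → ∀ᶠ L : ℕ in atTop,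
    ((L + ⌊c * L⌋₊ : ℕ) : ℝ) * Real.log 2 - ε * L ≤ HH (law L (L + ⌊c * L⌋₊))

/-! ### The parities of the orbit -/

-- deps:
def S_SPLIT : Prop :=
  ∀ (A : Type) [CommRing A] (a b : ℕ) (Φ Ψ : ℕ → A), Per a Φ → Per b Ψ →
    ∑ z ∈ range (2 ^ (a + b)), Φ z * Ψ (f^[a] z) =
      (∑ z ∈ range (2 ^ a), Φ z) * ∑ z ∈ range (2 ^ b), Ψ z

-- deps: SPLIT
def S_EQ : Prop :=
  ∀ (A : Type) [CommRing A] (L : ℕ) (F : ℕ → ℕ → A),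
    ∑ y ∈ range (2 ^ L), ∏ i ∈ range L, F i (dg i y) = ∏ i ∈ range L, (F i 0 + F i 1)

-- deps: EQ
def S_LAW : Prop :=
  ∀ L N : ℕ, pr 2 L (al N) = ((2 : ℝ) ^ L)⁻¹ • ∑ y ∈ range (2 ^ L),
    e ((y : ZMod (2 ^ N)) - 2 ^ L * (3 : ZMod (2 ^ N))⁻¹ ^ L * ((f^[L] y : ℕ) : ZMod (2 ^ N)))

-- deps: LAW FANO
def S_REDA : Prop :=
  ∀ (L D : ℕ) (B : Finset ℕ) (τ : ℝ), 0 ≤ τ → 2 * (B.card : ℝ) * Real.exp τ ≤ 2 ^ D →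
    τ * ((((range (2 ^ L)).filter fun y => f^[L] y % 2 ^ D ∈ B).card : ℝ) / 2 ^ L) ≤
      ((L + D : ℕ) : ℝ) * Real.log 2 - HH (law L (L + D)) + 1

-- deps: REDA ENT
def S_RED : Prop :=
  ∀ c δ ε : ℝ, 0 < c → c < 1 → 0 < δ → 0 < ε → ∀ᶠ L : ℕ in atTop, ∀ B : Finset ℕ,
    (B.card : ℝ) ≤ 2 ^ ⌊c * L⌋₊ * Real.exp (-(δ * L)) →
    (((range (2 ^ L)).filter fun y => f^[L] y % 2 ^ ⌊c * L⌋₊ ∈ B).card : ℝ) ≤ ε * 2 ^ L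

-- deps: SPLIT
def S_IND : Prop :=
  ∀ (h M : ℕ) (φ : ℕ → ℝ) (I : Finset ℕ), Per h φ → (∀ i ∈ I, ∀ j ∈ I, i < j → i + h ≤ j) →
    (∀ i ∈ I, i + h ≤ M) →
    ∑ z ∈ range (2 ^ M), ∏ i ∈ I, φ (f^[i] z) =
      2 ^ M * ((∑ z ∈ range (2 ^ h), φ z) / 2 ^ h) ^ I.card

-- deps: EQ
def S_MEAN : Prop :=
  ∀ (h : ℕ) (w : Fin h → Bool), ∑ z ∈ range (2 ^ h), xi w z = 0

-- deps: IND
def S_LD : Prop :=
  ∀ (h M k : ℕ) (ξ : ℕ → ℝ) (s θ : ℝ) (B : Finset ℕ), 1 ≤ h → Per h ξ → (∀ z, |ξ z| ≤ 1) →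
    ∑ z ∈ range (2 ^ h), ξ z = 0 → 0 ≤ s → s ≤ 1 → k + h ≤ M →
    (∀ z ∈ B, z < 2 ^ M ∧ θ ≤ ∑ i ∈ range k, ξ (f^[i] z)) →
    (B.card : ℝ) ≤ h * 2 ^ M * Real.exp (s ^ 2 * M - s * θ / h)

-- deps: LD MEAN
def S_BAD : Prop :=
  ∀ (h : ℕ) (w : Fin h → Bool) (η : ℝ), 0 < η → ∃ δ : ℝ, 0 < δ ∧ ∀ᶠ L : ℕ in atTop, ∀ M ≤ L,
    ((bad w (η * L) M).card : ℝ) ≤ 2 ^ M * Real.exp (-(δ * L))

-- deps: RED BAD
def S_CORE : Prop :=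
  ∀ (C : ℝ) (h : ℕ) (w : Fin h → Bool) (η ε : ℝ), C < 2 → 0 < η → 0 < ε →
    ∀ᶠ L : ℕ in atTop, ∀ B : Finset ℕ,
      (∀ y ∈ B, y < 2 ^ L ∧ ∃ k : ℕ, (k : ℝ) ≤ C * L ∧ η * L ≤ |dev w k y|) →
      (B.card : ℝ) ≤ ε * 2 ^ L

-- deps: CORE
def S_FINAL : Prop :=
  ∀ (C : ℝ), C < 2 → ∀ (h : ℕ) (w : Fin h → Bool) (η : ℝ), 0 < η →
    Tendsto (fun X : ℕ => (({x : ℕ | x < X ∧ ∃ k : ℕ, (k : ℝ) ≤ C * Real.logb 2 X ∧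
      η * Real.log X ≤ |(({i : ℕ | i < k ∧ ∀ j : Fin h,
        (Odd ((fun m : ℕ => 3 * m / 2 + 1)^[i + j] x) ↔ w j = true)}.ncard : ℝ)) -
          k / 2 ^ h|}.ncard : ℝ) / X)) atTop (𝓝 0)

end Pool.Agent.P.MP_fc15d7_nt.HZ
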