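import Pool.Agent.P.MP_fc15d7_nt.HZ.Iface

/-! Step CORE. -/

set_option autoImplicit false
set_option linter.unusedSectionVars false

namespace Pool.Agent.P.MP_fc15d7_nt.HZ

open Finset Filter Topology

theorem core_split {h : ℕ} (w : Fin h → Bool) {θ : ℝ} {L D k y : ℕ} (hy : y < 2 ^ L)
    (h0 : 0 ≤ θ) (h1 : (h : ℝ) ≤ θ) (h2 : h ≤ L) (h3 : L < k → k - L + h ≤ D)
    (hk : 3 * θ ≤ |dev w k y|) : y ∈ bad w θ L ∨ f^[L] y % 2 ^ D ∈ bad w θ D := by
  by_contra hc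
  rw [not_or, mem_bad, mem_bad] at hc
  have a1 : ∀ j, j + h ≤ L → |dev w j y| < θ := fun j hj =>
    not_le.1 fun e => hc.1 ⟨hy, j, hj, e⟩
  have a2 : ∀ j, j ≤ L → |dev w j y| < 2 * θ := fun j hj => by
    rcases le_total (j + h) L with e | e
    · linarith [a1 j e]
    · obtain ⟨i, rfl⟩ : ∃ i, j = L - h + i := ⟨j - (L - h), by omega⟩
      have b1 := a1 (L - h) (by omega)
      have b2 := abs_dev_le w i (f^[L - h] y)
      have b3 : (i : ℝ) ≤ h := by exact_mod_cast (by omega : i ≤ h)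
      rw [dev_add]
      linarith [abs_add_le (dev w (L - h) y) (dev w i (f^[L - h] y))]
  rcases le_or_gt k L with e | e
  · linarith [a2 k e]
  · have b1 := h3 e
    obtain ⟨i, rfl⟩ := Nat.exists_eq_add_of_le e.le
    rw [Nat.add_sub_cancel_left] at b1
    refine hc.2 ⟨Nat.mod_lt _ (by positivity), i, b1, ?_⟩
    rw [(per_dev w b1).mod]
    rw [dev_add] at hk
    linarith [abs_add_le (dev w L y) (dev w i (f^[L] y)), a2 L le_rfl]

theorem p_CORE (hRED : S_RED) (hBAD : S_BAD) :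
    S_CORE := by
  classical
  intro C h w η ε hC hη hε
  obtain ⟨δ, hδ, hb⟩ := hBAD h w (η / 3) (by positivity)
  have c0 : (0 : ℝ) < max (C / 2) (1 / 2) := lt_max_of_lt_right (by norm_num)
  have c1 : max (C / 2) (1 / 2) < 1 := max_lt (by linarith) (by norm_num)
  have c2 : C / 2 ≤ max (C / 2) (1 / 2) := le_max_left _ _
  generalize max (C / 2) (1 / 2) = c at c0 c1 c2
  have t : ∀ a b : ℝ, 0 < a → ∀ᶠ L : ℕ in atTop, b ≤ a * L := fun a b ha =>
    (tendsto_natCast_atTop_atTop.const_mul_atTop ha).eventually_ge_atTop b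
  filter_upwards [hb, hRED c δ (ε / 2) c0 c1 hδ (by positivity), t (η / 3) h (by positivity),
    t (1 - C / 2) (h + 1) (by linarith), t δ (-Real.log (ε / 2)) hδ, eventually_ge_atTop h]
    with L l1 l2 l3 l4 l5 l6 B hB
  have L0 : (0 : ℝ) ≤ L := Nat.cast_nonneg L
  have d1 : ⌊c * L⌋₊ ≤ L := Nat.floor_le_of_le (by nlinarith)
  have d2 : c * L < ⌊c * L⌋₊ + 1 := Nat.lt_floor_add_one _
  have e1 : Real.exp (-(δ * L)) ≤ ε / 2 := by
    rw [← Real.exp_log (by positivity : 0 < ε / 2)]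
    exact Real.exp_le_exp.2 (by linarith)
  have s : B ⊆ bad w (η / 3 * L) L ∪ (range (2 ^ L)).filter fun y =>
      f^[L] y % 2 ^ ⌊c * L⌋₊ ∈ bad w (η / 3 * L) ⌊c * L⌋₊ := fun y hy => by
    obtain ⟨y1, k, k1, k2⟩ := hB y hy
    refine mem_union.2 ((core_split w (D := ⌊c * L⌋₊) (k := k) y1 (by positivity) l3 l6
      (fun e => ?_) (by linarith)).imp_right fun e => mem_filter.2 ⟨mem_range.2 y1, e⟩)
    have : (k : ℝ) + h ≤ ⌊c * L⌋₊ + L := by nlinarith
    have : k + h ≤ ⌊c * L⌋₊ + L := by exact_mod_cast this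
    omega
  have s1 := (card_le_card s).trans (card_union_le _ _)
  have s2 : (B.card : ℝ) ≤ (bad w (η / 3 * L) L).card + (((range (2 ^ L)).filter fun y =>
      f^[L] y % 2 ^ ⌊c * L⌋₊ ∈ bad w (η / 3 * L) ⌊c * L⌋₊).card : ℝ) := by exact_mod_cast s1
  have s3 := l2 _ (l1 _ d1)
  have s4 := (l1 L le_rfl).trans (mul_le_mul_of_nonneg_left e1 (by positivity))
  linarith

end Pool.Agent.P.MP_fc15d7_nt.HZ
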