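import Pool.Agent.P.MP_fc15d7_nt.HZ.Iface

/-! Step ENTA. -/

set_option autoImplicit false
set_option linter.unusedSectionVars false

namespace Pool.Agent.P.MP_fc15d7_nt.HZ

open Finset Filter Topology

theorem p_ENTA (hCELL : S_CELL) (hPERC : S_PERC) (hINJ : S_INJ) (hGAPS : S_GAPS) (hMONO : S_MONO) :
    S_ENTA := by
  intro m g k l ν h1 h2 h3
  obtain ⟨q0, h0⟩ := hINJ m g k l ν h1 h2
  refine ⟨q0, fun q hq L N Q hQ a1 a2 a3 => ?_⟩
  obtain ⟨A, hA, e⟩ := hGAPS _ (al N) m g q L a1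
  have p0 : Pm (ap (2 ^ L) (1 : ZMod (2 ^ N))) := Pm.ap Nat.one_le_two_pow _
  have key := hPERC (ZMod (2 ^ N)) (Fin m) univ
    (fun j => pr 2 (g * q) fun t => al N (((j : ℕ) * (g + 1) + 1) * q + t))
    (fun j => pr 3 (g * q) fun t => al N (((j : ℕ) * (g + 1) + 1) * q + t)) _ lam _ _ _ k
    lam_nonneg lam_le_one (mul_nonneg (by positivity) (Real.log_nonneg (by norm_num)))
    (by simpa using h3) p0 (fun _ _ => Pm.pr (by norm_num) _ _)
    (fun _ _ => Pm.pr (by norm_num) _ _)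
    (fun j _ p hp => hCELL _ _ (g * q) Q p hQ (fun s => al_succ N _) hp)
    fun K _ => h0 q hq L N a3 a2 K
  rw [law, e, mul_assoc A]
  refine le_trans (le_of_eq ?_) (key.trans (hMONO _ A _ hA
    ((Pm.prod _ fun _ _ => Pm.pr one_le_two _ _).mul p0)))
  simp [er, ZMod.card]

end Pool.Agent.P.MP_fc15d7_nt.HZ
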