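import Pool.Agent.P.MP_fc15d7_nt.HZ.Iface

/-! Step FINAL. -/

set_option autoImplicit false
set_option linter.unusedSectionVars false

namespace Pool.Agent.P.MP_fc15d7_nt.HZ

open Finset Filter Topology

theorem final_iter (i x : ℕ) : (fun m : ℕ => 3 * m / 2 + 1)^[i] x + 2 = f^[i] (x + 2) := by
  induction i with
  | zero => rfl
  | succ i ih =>
    rw [Function.iterate_succ_apply', Function.iterate_succ_apply', ← ih]
    unfold f; omega

theorem final_dev {h : ℕ} (w : Fin h → Bool) (k x : ℕ) :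
    (({i : ℕ | i < k ∧ ∀ j : Fin h,
      (Odd ((fun m : ℕ => 3 * m / 2 + 1)^[i + j] x) ↔ w j = true)}.ncard : ℝ)) - k / 2 ^ h =
      dev w k (x + 2) := by
  classical
  have h1 : {i : ℕ | i < k ∧ ∀ j : Fin h,
      (Odd ((fun m : ℕ => 3 * m / 2 + 1)^[i + j] x) ↔ w j = true)} =
      ((range k).filter fun i => ind w (f^[i] (x + 2)) : Finset ℕ) := by
    ext i
    rw [mem_coe, mem_filter, mem_range]
    refine and_congr_right fun _ => forall_congr' fun j => ?_
    rw [← Function.iterate_add_apply, add_comm (j : ℕ) i, ← final_iter, Nat.odd_iff, Nat.odd_iff,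
      Nat.add_mod_right]
  rw [h1, Set.ncard_coe_finset, dev]
  simp only [xi, sum_sub_distrib, sum_boole, sum_const, card_range, nsmul_eq_mul, mul_one_div]

theorem p_FINAL (hCORE : S_CORE) :
    S_FINAL := by
  intro C hC h w η hη
  simp only [final_dev]
  have ht : Tendsto (fun X : ℕ => Nat.log 2 (X + 1) + 1) atTop atTop := by
    refine tendsto_atTop.2 fun n => ?_
    filter_upwards [eventually_ge_atTop (2 ^ n)] with X hX
    have := Nat.le_log_of_pow_le (by norm_num : 1 < 2) (hX.trans (Nat.le_add_right X 1))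
    omega
  refine tendsto_order.2 ⟨fun a ha => Eventually.of_forall fun X =>
    ha.trans_le (by positivity), fun ε hε => ?_⟩
  filter_upwards [ht.eventually (hCORE (max C 0) h w (η / 4) (ε / 8) (max_lt hC two_pos)
    (by positivity) (by positivity)), ht.eventually_ge_atTop 4, eventually_ge_atTop 1]
    with X h1 h2 h3
  set L := Nat.log 2 (X + 1) + 1 with hL
  have a1 : X + 1 < 2 ^ L := Nat.lt_pow_succ_log_self (by norm_num) _
  have a2 : 2 ^ L ≤ 4 * X := by
    have := Nat.pow_log_le_self 2 (Nat.add_one_ne_zero X)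
    rw [hL, pow_succ]
    omega
  have x1 : (1 : ℝ) ≤ X := by exact_mod_cast h3
  have l4 : (4 : ℝ) ≤ L := by exact_mod_cast h2
  have a3 : (X : ℝ) ≤ 2 ^ L := by exact_mod_cast (by omega : X ≤ 2 ^ L)
  have a4 : (2 : ℝ) ^ L ≤ 4 * X := by exact_mod_cast a2
  have a5 : Real.logb 2 X ≤ L := by
    rw [Real.logb_le_iff_le_rpow (by norm_num) (by linarith), Real.rpow_natCast]
    exact a3
  have a6 : (L : ℝ) / 4 ≤ Real.log X := by
    have b1 := Real.log_le_log (by positivity) a4
    rw [Real.log_pow, Real.log_mul (by norm_num) (by linarith),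
      show (4 : ℝ) = 2 ^ 2 by norm_num, Real.log_pow] at b1
    push_cast at b1
    nlinarith [Real.log_two_gt_d9]
  set S := {x : ℕ | x < X ∧ ∃ k : ℕ, (k : ℝ) ≤ C * Real.logb 2 X ∧
    η * Real.log X ≤ |dev w k (x + 2)|} with hS
  have hfin : S.Finite := (Set.finite_Iio X).subset fun x hx => hx.1
  have h4 := h1 (hfin.toFinset.image (· + 2)) (by
    intro y hy
    obtain ⟨x, hx, rfl⟩ := mem_image.1 hy
    obtain ⟨c1, k, c2, c3⟩ := hfin.mem_toFinset.1 hx
    refine ⟨by omega, k, c2.trans ?_, le_trans ?_ c3⟩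
    · exact mul_le_mul (le_max_left _ _) a5 (Real.logb_nonneg (by norm_num) x1) (le_max_right _ _)
    · nlinarith)
  rw [card_image_of_injective _ (add_left_injective 2), ← Set.ncard_eq_toFinset_card S hfin] at h4
  rw [div_lt_iff₀ (by linarith)]
  nlinarith

end Pool.Agent.P.MP_fc15d7_nt.HZ
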