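import Pool.Agent.P.MP_fc15d7_nt.HZ.Iface

/-! Step INJ. -/

set_option autoImplicit false
set_option linter.unusedSectionVars false

namespace Pool.Agent.P.MP_fc15d7_nt.HZ

open Finset Filter Topology

theorem inj_al (N i r : ℕ) :
    (3 : ZMod (2 ^ N)) ^ (i + 1 + r) * al N i = 2 ^ i * 3 ^ r := by
  unfold al
  have h := three_mul_inv N
  calc _ = 2 ^ i * 3 ^ r * ((3 : ZMod (2 ^ N)) * 3⁻¹) ^ (i + 1) := by rw [mul_pow]; ring
    _ = _ := by rw [h, one_pow, mul_one]

theorem inj_exp {m g q j t : ℕ} (hj : j < m) (ht : t < g * q) :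
    m * (g + 1) * q =
      ((j * (g + 1) + 1) * q + t) + 1 + ((m - 1 - j) * (g + 1) * q + (g * q - 1 - t)) := by
  obtain ⟨s, rfl⟩ := Nat.exists_eq_add_of_lt hj
  have h1 : j + s + 1 - 1 - j = s := by omega
  have h2 : (j + s + 1) * (g + 1) * q = (j * (g + 1) + 1) * q + g * q + s * (g + 1) * q := by ring
  rw [h1, h2]
  omega

theorem inj_ap_one {G : Type} [AddCommGroup G] [Fintype G] (a : G) : ap 1 a = 1 := by
  simp [ap, e_zero]

theorem p_INJ (hMDS : S_MDS) (hFLAT : S_FLAT) (hDIG : S_DIG) (hMONO : S_MONO) :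
    S_INJ := by
  classical
  intro m g k l ν hl hν
  obtain ⟨q0, hq0⟩ := hMDS m g k l ν hl hν
  refine ⟨q0, fun q hq L N hN hL K => ?_⟩
  obtain ⟨K', hK'K, hK'c⟩ := Finset.exists_subset_card_eq (s := K) (n := min K.card k)
    (min_le_left _ _)
  set U : Fin m → GA (ZMod (2 ^ N)) := fun j =>
    pr 3 (g * q) fun t => al N (((j : ℕ) * (g + 1) + 1) * q + t) with hU
  have hPU : ∀ j, Pm (U j) := fun j => Pm.pr (by norm_num) _ _
  have hPa : Pm (ap (2 ^ L) (1 : ZMod (2 ^ N))) := Pm.ap Nat.one_le_two_pow _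
  have hmono : HH ((∏ j ∈ K', U j) * ap (2 ^ L) 1) ≤ HH ((∏ j ∈ K, U j) * ap (2 ^ L) 1) := by
    rw [← prod_sdiff hK'K, mul_assoc]
    exact hMONO _ _ _ (Pm.prod _ fun j _ => hPU j) ((Pm.prod _ fun j _ => hPU j).mul hPa)
  refine le_trans ?_ hmono
  let R : Option (Fin m × Fin (g * q)) → ℕ := fun i =>
    i.elim (2 ^ L) fun p => if p.1 ∈ K' then 3 else 1
  let b : Option (Fin m × Fin (g * q)) → ZMod (2 ^ N) := fun i =>
    i.elim 1 fun p => al N (((p.1 : ℕ) * (g + 1) + 1) * q + p.2)
  have hF := hFLAT (ZMod (2 ^ N)) _ R b ?_ ?_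
  · have e1 : ∏ i, ap (R i) (b i) = (∏ j ∈ K', U j) * ap (2 ^ L) 1 := by
      rw [Fintype.prod_option, mul_comm, Fintype.prod_prod_type]
      congr 1
      rw [← Finset.prod_subset (subset_univ K')]
      · refine prod_congr rfl fun j hj => ?_
        simp only [R, b, Option.elim, if_pos hj, hU, pr]
        exact Fin.prod_univ_eq_prod_range
          (fun t => ap 3 (al N (((j : ℕ) * (g + 1) + 1) * q + t))) (g * q)
      · intro j _ hj
        simp only [R, b, Option.elim, if_neg hj, inj_ap_one, prod_const_one]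
    have e2 : ∑ i, Real.log (R i) =
        L * Real.log 2 + (g * q * Real.log 3) * min (K.card : ℝ) k := by
      rw [Fintype.sum_option, Fintype.sum_prod_type, ← Finset.sum_subset (subset_univ K')]
      · have : ∀ j ∈ K', ∑ t : Fin (g * q), Real.log (R (some (j, t))) = g * q * Real.log 3 := by
          intro j hj
          simp [R, if_pos hj]
        rw [sum_congr rfl this, sum_const, hK'c, nsmul_eq_mul]
        simp only [R, Option.elim]
        push_cast
        rw [Real.log_pow]
        ring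
      · intro j _ hj
        simp [R, if_neg hj]
    rw [e1, e2] at hF
    exact hF
  · rintro (_ | p)
    · exact Nat.one_le_two_pow
    · simp only [R, Option.elim]
      split_ifs <;> norm_num
  · intro d d' hd hd' hs
    let δ : Fin m → ℕ → ℤ := fun j t =>
      if h : t < g * q then (d (some (j, ⟨t, h⟩)) : ℤ) - d' (some (j, ⟨t, h⟩)) else 0
    have hδ : ∀ j, ∀ t < g * q, |δ j t| ≤ 2 := by
      intro j t ht
      have h1 := hd (some (j, ⟨t, ht⟩))
      have h2 := hd' (some (j, ⟨t, ht⟩))
      simp only [R, Option.elim] at h1 h2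
      simp only [δ, dif_pos ht]
      rw [abs_le]
      split_ifs at h1 h2 <;> constructor <;> omega
    have hδ0 : ∀ j, j ∉ K' → ∀ t, δ j t = 0 := by
      intro j hj t
      simp only [δ]
      split_ifs with ht
      · have h1 := hd (some (j, ⟨t, ht⟩))
        have h2 := hd' (some (j, ⟨t, ht⟩))
        simp only [R, Option.elim, if_neg hj] at h1 h2
        omega
      · rfl
    let c : Fin m → ℤ := fun j => ∑ t ∈ range (g * q), δ j t * 2 ^ t * 3 ^ (g * q - 1 - t)
    have key := hq0 q hq N ((d none : ℤ) - d' none) c hN ?_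
      (fun j => (hDIG _ _ (hδ j)).1) ?_ ?_
    · funext i
      rcases i with _ | ⟨j, t⟩
      · have := key.1
        omega
      · have h1 := (hDIG _ _ (hδ j)).2 (key.2 j) t t.2
        simp only [δ, dif_pos t.2] at h1
        have h2 : (d (some (j, t)) : ℤ) - d' (some (j, t)) = 0 := h1
        omega
    · have h1 : d none < 2 ^ L := hd none
      have h2 : d' none < 2 ^ L := hd' none
      have h3 : (d none : ℝ) ≤ 2 ^ L := by exact_mod_cast h1.le
      have h4 : (d' none : ℝ) ≤ 2 ^ L := by exact_mod_cast h2.le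
      have h5 : (2 : ℝ) ^ L ≤ 2 ^ (l * q) := by
        rw [← Real.rpow_natCast]
        exact Real.rpow_le_rpow_of_exponent_le (by norm_num) hL
      have h6 : (0 : ℝ) ≤ d none := Nat.cast_nonneg _
      have h7 : (0 : ℝ) ≤ d' none := Nat.cast_nonneg _
      push_cast
      rw [abs_le]
      constructor <;> linarith
    · refine le_trans (card_le_card (t := K') ?_) (hK'c ▸ min_le_right _ _)
      intro j hj
      by_contra hjK
      refine (mem_filter.1 hj).2 ?_
      simp [c, hδ0 j hjK]
    · have hz := (ZMod.intCast_zmod_eq_zero_iff_dvd (3 ^ (m * (g + 1) * q) * ((d none : ℤ) - d' none) +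
        ∑ j : Fin m, 2 ^ (((j : ℕ) * (g + 1) + 1) * q) * 3 ^ ((m - 1 - j) * (g + 1) * q) * c j)
        (2 ^ N)).1 ?_
      · exact_mod_cast hz
      have hc : ∀ j : Fin m, (2 : ZMod (2 ^ N)) ^ (((j : ℕ) * (g + 1) + 1) * q) *
          3 ^ ((m - 1 - j) * (g + 1) * q) * ((c j : ℤ) : ZMod (2 ^ N)) =
          3 ^ (m * (g + 1) * q) * (∑ t : Fin (g * q), d (some (j, t)) • b (some (j, t)) -
            ∑ t : Fin (g * q), d' (some (j, t)) • b (some (j, t))) := by
        intro j
        simp only [c]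
        rw [← Fin.sum_univ_eq_sum_range (fun t => δ j t * 2 ^ t * 3 ^ (g * q - 1 - t)) (g * q),
          ← sum_sub_distrib, mul_sum]
        push_cast
        rw [mul_sum]
        refine sum_congr rfl fun t _ => ?_
        have h1 := inj_al N (((j : ℕ) * (g + 1) + 1) * q + t)
          ((m - 1 - j) * (g + 1) * q + (g * q - 1 - t))
        rw [← inj_exp j.2 t.2] at h1
        simp only [δ, dif_pos t.2, b, Option.elim, nsmul_eq_mul]
        push_cast
        rw [pow_add, pow_add] at h1
        linear_combination (-((d (some (j, t)) : ZMod (2 ^ N)) - d' (some (j, t)))) * h1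
      rw [Fintype.sum_option, Fintype.sum_option, Fintype.sum_prod_type,
        Fintype.sum_prod_type] at hs
      push_cast
      rw [sum_congr rfl fun j _ => hc j, ← mul_sum, sum_sub_distrib]
      simp only [b, Option.elim, nsmul_eq_mul, mul_one] at hs ⊢
      linear_combination (3 : ZMod (2 ^ N)) ^ (m * (g + 1) * q) * hs

end Pool.Agent.P.MP_fc15d7_nt.HZ
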