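import Pool.Agent.P.MP_fc15d7_nt.HZ.Iface

/-! Step REDA. -/

set_option autoImplicit false
set_option linter.unusedSectionVars false

namespace Pool.Agent.P.MP_fc15d7_nt.HZ

open Finset Filter Topology

namespace REDAb

theorem mass {G : Type} [AddCommGroup G] [Fintype G] {R : ℕ} (hR : 1 ≤ R) (a c : G)
    (S : Finset G) (h : ∀ j < R, j • c + a ∈ S) : ∑ x ∈ S, co (e a * ap R c) x = 1 := by
  classical
  have hR' : (0 : ℝ) < R := by exact_mod_cast hR
  simp only [mul_comm (e a), co_ap_mul, co_e]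
  rw [← sum_div, sum_comm, div_eq_one_iff_eq hR'.ne']
  rw [sum_congr rfl (g := fun _ => (1 : ℝ)) fun j hj => ?_]
  · simp
  · simp only [eq_sub_iff_add_eq']
    rw [sum_ite_eq, if_pos (h j (mem_range.1 hj))]

theorem red (L D z : ℕ) :
    (2 : ZMod (2 ^ (L + D))) ^ L * (z : ZMod (2 ^ (L + D))) = 2 ^ L * ((z % 2 ^ D : ℕ) : ZMod _) := by
  have h : (2 : ZMod (2 ^ (L + D))) ^ L * 2 ^ D = 0 := by
    rw [← pow_add]
    exact_mod_cast ZMod.natCast_self (2 ^ (L + D))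
  have h2 : (z : ZMod (2 ^ (L + D))) = ((z % 2 ^ D : ℕ) : ZMod _) + 2 ^ D * ((z / 2 ^ D : ℕ) : ZMod _) := by
    exact_mod_cast congrArg (Nat.cast : ℕ → ZMod (2 ^ (L + D))) (Nat.mod_add_div z (2 ^ D)).symm
  linear_combination 2 ^ L * h2 + ((z / 2 ^ D : ℕ) : ZMod (2 ^ (L + D))) * h

end REDAb

theorem p_REDA (hLAW : S_LAW) (hFANO : S_FANO) :
    S_REDA := by
  intro L D B τ h0 hB
  set S : Finset (ZMod (2 ^ (L + D))) := (range (2 ^ (L + 1)) ×ˢ B).image fun p =>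
    (p.1 : ZMod (2 ^ (L + D))) - 2 ^ L * (3 : ZMod (2 ^ (L + D)))⁻¹ ^ L * (p.2 : ZMod _) with hS
  have hc : (S.card : ℝ) ≤ 2 ^ (L + 1) * B.card := by
    have : S.card ≤ (range (2 ^ (L + 1)) ×ˢ B).card := card_image_le
    rw [card_product, card_range] at this
    exact_mod_cast this
  have hcard : (Fintype.card (ZMod (2 ^ (L + D))) : ℝ) = 2 ^ (L + D) := by
    rw [ZMod.card]; push_cast; rfl
  have hF := hFANO _ (law L (L + D)) S τ (Pm.law _ _) (by
    rw [hcard, pow_add (2 : ℝ)]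
    calc (S.card : ℝ) * Real.exp τ ≤ 2 ^ (L + 1) * B.card * Real.exp τ := by gcongr
      _ = 2 ^ L * (2 * B.card * Real.exp τ) := by ring
      _ ≤ _ := by gcongr)
  rw [hcard, Real.log_pow] at hF
  refine le_trans (mul_le_mul_of_nonneg_left ?_ h0) hF
  rw [law, hLAW, smul_mul_assoc, sum_mul]
  simp only [co_smul, co_sum]
  rw [← mul_sum, sum_comm, div_eq_inv_mul]
  refine mul_le_mul_of_nonneg_left ?_ (by positivity)
  rw [card_eq_sum_ones, Nat.cast_sum, sum_filter]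
  refine sum_le_sum fun y hy => ?_
  split_ifs with hy'
  · rw [Nat.cast_one]
    refine (REDAb.mass Nat.one_le_two_pow _ _ S fun j hj => ?_).ge
    refine mem_image.2 ⟨(j + y, f^[L] y % 2 ^ D), mem_product.2 ⟨mem_range.2 ?_, hy'⟩, ?_⟩
    · have := mem_range.1 hy
      simp only [pow_succ]
      omega
    · simp only [nsmul_eq_mul, mul_one, Nat.cast_add]
      linear_combination (3 : ZMod (2 ^ (L + D)))⁻¹ ^ L * REDAb.red L D (f^[L] y)
  · exact sum_nonneg fun x _ => ((Pm.e _).mul (Pm.ap Nat.one_le_two_pow _)).1 x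

end Pool.Agent.P.MP_fc15d7_nt.HZ
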