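import Mathlib

/-! Probability vectors on a finite abelian group as elements of the real group algebra, their
entropy, and the map `y ↦ ⌊3 y / 2⌋`. -/

set_option autoImplicit false
set_option linter.unusedSectionVars false

namespace Pool.Agent.P.MP_fc15d7_nt.HZ

open Finset

/-- the real group algebra -/
abbrev GA (G : Type) : Type := AddMonoidAlgebra ℝ G

section Alg

variable {G : Type} [AddCommGroup G] [Fintype G]

/-- the point mass at `a` -/
noncomputable def e (a : G) : GA G := AddMonoidAlgebra.single a 1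

/-- the value at `x` -/
def co (p : GA G) (x : G) : ℝ := p.coeff x

/-- probability vectors -/
def Pm (p : GA G) : Prop := (∀ x, 0 ≤ co p x) ∧ ∑ x, co p x = 1

/-- Shannon entropy -/
noncomputable def HH (p : GA G) : ℝ := ∑ x, Real.negMulLog (co p x)

/-- the sum of the absolute values -/
noncomputable def n1 (p : GA G) : ℝ := ∑ x, |co p x|

/-- the uniform law on `0, a, …, (R - 1) a` -/
noncomputable def ap (R : ℕ) (a : G) : GA G := (R : ℝ)⁻¹ • ∑ j ∈ range R, e (j • a)

/-- the law of `∑ t < n, d t • a t` for independent digits `d t` uniform in `[0, R)` -/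
noncomputable def pr (R n : ℕ) (a : ℕ → G) : GA G := ∏ t ∈ range n, ap R (a t)

/-- the continuity error -/
noncomputable def er (G : Type) [Fintype G] (Q : ℕ) : ℝ :=
  (2 + Real.log (Fintype.card G) + Real.log Q) / Q

theorem ext_co {p q : GA G} (h : ∀ x, co p x = co q x) : p = q :=
  AddMonoidAlgebra.coeff_injective (Finsupp.ext h)

@[simp] theorem co_add (p q : GA G) (x : G) : co (p + q) x = co p x + co q x := rfl

@[simp] theorem co_sub (p q : GA G) (x : G) : co (p - q) x = co p x - co q x := rfl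

@[simp] theorem co_neg (p : GA G) (x : G) : co (-p) x = -co p x := rfl

@[simp] theorem co_zero (x : G) : co (0 : GA G) x = 0 := rfl

@[simp] theorem co_smul (c : ℝ) (p : GA G) (x : G) : co (c • p) x = c * co p x := rfl

theorem co_sum {ι : Type} (s : Finset ι) (p : ι → GA G) (x : G) :
    co (∑ i ∈ s, p i) x = ∑ i ∈ s, co (p i) x := by
  simp [co, AddMonoidAlgebra.coeff_sum, Finsupp.finsetSum_apply]

theorem co_e [DecidableEq G] (a x : G) : co (e a) x = if a = x then 1 else 0 := by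
  simp [co, e, Finsupp.single_apply]

theorem e_zero : e (0 : G) = 1 := rfl

theorem e_add (a b : G) : e (a + b) = e a * e b := by
  simp [e, AddMonoidAlgebra.single_mul_single]

theorem e_sum {ι : Type} (s : Finset ι) (a : ι → G) : e (∑ i ∈ s, a i) = ∏ i ∈ s, e (a i) := by
  classical
  induction s using Finset.induction_on with
  | empty => simp [e_zero]
  | insert i s hi ih => rw [sum_insert hi, prod_insert hi, e_add, ih]

theorem co_e_mul (a : G) (p : GA G) (x : G) : co (e a * p) x = co p (x - a) := by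
  simp [co, e, AddMonoidAlgebra.coeff_single_mul_apply, neg_add_eq_sub]

theorem eq_sum_e (p : GA G) : p = ∑ y, co p y • e y := by
  classical
  refine ext_co fun x => ?_
  simp [co_sum, co_e]

/-- the convolution formula -/
theorem co_mul (A p : GA G) (x : G) : co (A * p) x = ∑ y, co A y * co p (x - y) := by
  conv_lhs => rw [eq_sum_e A]
  simp [sum_mul, co_sum, co_e_mul]

theorem sum_sub (φ : G → ℝ) (a : G) : ∑ x, φ (x - a) = ∑ x, φ x :=
  (Equiv.subRight a).sum_comp φ

theorem sum_co_mul (A p : GA G) : ∑ x, co (A * p) x = (∑ x, co A x) * ∑ x, co p x := by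
  simp only [co_mul]
  rw [sum_comm, sum_mul]
  refine sum_congr rfl fun y _ => ?_
  rw [← mul_sum, sum_sub (co p) y]

theorem co_ap_mul (R : ℕ) (a : G) (p : GA G) (x : G) :
    co (ap R a * p) x = (∑ j ∈ range R, co p (x - j • a)) / R := by
  simp [ap, sum_mul, co_sum, co_e_mul, div_eq_inv_mul]

theorem co_ap_two_mul (a : G) (p : GA G) (x : G) :
    co (ap 2 a * p) x = (co p x + co p (x - a)) / 2 := by
  simp [co_ap_mul, sum_range_succ]

theorem co_ap_three_mul (a : G) (p : GA G) (x : G) :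
    co (ap 3 a * p) x = (co p x + co p (x - a) + co p (x - 2 • a)) / 3 := by
  simp [co_ap_mul, sum_range_succ]

theorem ap_two (a : G) : ap 2 a = (2 : ℝ)⁻¹ • (1 + e a) := by
  simp [ap, sum_range_succ, e_zero]

theorem ap_three (a : G) : ap 3 a = (3 : ℝ)⁻¹ • (1 + e a + e (2 • a)) := by
  simp [ap, sum_range_succ, e_zero]

theorem Pm.e (a : G) : Pm (e a) := by
  classical
  refine ⟨fun x => ?_, ?_⟩
  · rw [co_e]; split_ifs <;> norm_num
  · simp [co_e]

theorem Pm.one : Pm (1 : GA G) := Pm.e 0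

theorem Pm.mul {p q : GA G} (hp : Pm p) (hq : Pm q) : Pm (p * q) :=
  ⟨fun x => by rw [co_mul]; exact sum_nonneg fun y _ => mul_nonneg (hp.1 y) (hq.1 _),
    by rw [sum_co_mul, hp.2, hq.2, one_mul]⟩

theorem Pm.prod {ι : Type} (s : Finset ι) {p : ι → GA G} (h : ∀ i ∈ s, Pm (p i)) :
    Pm (∏ i ∈ s, p i) :=
  Finset.prod_induction p Pm (fun _ _ => Pm.mul) Pm.one h

theorem Pm.ap {R : ℕ} (hR : 1 ≤ R) (a : G) : Pm (ap R a) := by
  have hR' : (0 : ℝ) < R := by exact_mod_cast hR
  refine ⟨fun x => ?_, ?_⟩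
  · simp only [HZ.ap, co_smul, co_sum]
    exact mul_nonneg (by positivity) (sum_nonneg fun j _ => (Pm.e _).1 x)
  · simp only [HZ.ap, co_smul, co_sum]
    rw [← mul_sum, sum_comm]
    simp [(Pm.e _).2, hR'.ne']

theorem Pm.pr {R : ℕ} (hR : 1 ≤ R) (n : ℕ) (a : ℕ → G) : Pm (pr R n a) :=
  Pm.prod _ fun _ _ => Pm.ap hR _

theorem Pm.le_one {p : GA G} (hp : Pm p) (x : G) : co p x ≤ 1 :=
  hp.2 ▸ single_le_sum (fun y _ => hp.1 y) (mem_univ x)

theorem pr_zero (R : ℕ) (a : ℕ → G) : pr R 0 a = 1 := by simp [pr]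

theorem pr_succ (R n : ℕ) (a : ℕ → G) : pr R (n + 1) a = ap R (a n) * pr R n a := by
  rw [pr, prod_range_succ, mul_comm]; rfl

theorem HH_e_mul (a : G) (p : GA G) : HH (e a * p) = HH p := by
  simp only [HH, co_e_mul]
  exact sum_sub (fun x => Real.negMulLog (co p x)) a

theorem n1_nonneg (p : GA G) : 0 ≤ n1 p := sum_nonneg fun _ _ => abs_nonneg _

theorem n1_add_le (p q : GA G) : n1 (p + q) ≤ n1 p + n1 q := by
  rw [n1, n1, n1, ← sum_add_distrib]
  exact sum_le_sum fun x _ => abs_add_le _ _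

theorem n1_neg (p : GA G) : n1 (-p) = n1 p := by simp [n1]

theorem n1_sub_comm (p q : GA G) : n1 (p - q) = n1 (q - p) := by rw [← n1_neg, neg_sub]

theorem n1_sub_le (p q r : GA G) : n1 (p - r) ≤ n1 (p - q) + n1 (q - r) := by
  rw [← sub_add_sub_cancel p q r]; exact n1_add_le _ _

theorem n1_smul (c : ℝ) (p : GA G) : n1 (c • p) = |c| * n1 p := by
  simp [n1, abs_mul, mul_sum]

theorem n1_e_mul (a : G) (p : GA G) : n1 (e a * p) = n1 p := by
  simp only [n1, co_e_mul]
  exact sum_sub (fun x => |co p x|) a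

theorem Pm.n1 {p : GA G} (hp : Pm p) : n1 p = 1 := by
  rw [← hp.2]; exact sum_congr rfl fun x _ => abs_of_nonneg (hp.1 x)

/-- convolution by a probability vector is a contraction -/
theorem n1_mul_le {A : GA G} (hA : Pm A) (p : GA G) : n1 (A * p) ≤ n1 p := by
  calc n1 (A * p) ≤ ∑ x, ∑ y, co A y * |co p (x - y)| := by
        refine sum_le_sum fun x _ => ?_
        rw [co_mul]
        refine (abs_sum_le_sum_abs _ _).trans (le_of_eq (sum_congr rfl fun y _ => ?_))
        rw [abs_mul, abs_of_nonneg (hA.1 y)]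
    _ = n1 p := by
        rw [sum_comm]
        simp only [← mul_sum]
        have : ∀ y, ∑ x, |co p (x - y)| = n1 p := fun y => sum_sub (fun x => |co p x|) y
        simp only [this]
        rw [← sum_mul, hA.2, one_mul]

theorem er_nonneg (Q : ℕ) : 0 ≤ er G Q := by
  unfold er
  have h1 := Real.log_natCast_nonneg (Fintype.card G)
  have h2 := Real.log_natCast_nonneg Q
  positivity

theorem pr_add (R m n : ℕ) (a : ℕ → G) :
    pr R (m + n) a = pr R m a * pr R n fun t => a (m + t) := by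
  simp only [pr, prod_range_add]

end Alg

/-- `log 2 / log 3` -/
noncomputable def lam : ℝ := Real.log 2 / Real.log 3

theorem lam_mul : lam * Real.log 3 = Real.log 2 :=
  div_mul_cancel₀ _ (Real.log_pos (by norm_num)).ne'

theorem half_le_lam : 1 / 2 ≤ lam := by
  rw [lam, le_div_iff₀ (Real.log_pos (by norm_num))]
  have h : Real.log 3 ≤ Real.log (2 ^ 2) := Real.log_le_log (by norm_num) (by norm_num)
  rw [Real.log_pow] at h
  push_cast at h
  linarith

theorem lam_le_one : lam ≤ 1 := by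
  rw [lam, div_le_one (Real.log_pos (by norm_num))]
  exact Real.log_le_log (by norm_num) (by norm_num)

theorem lam_nonneg : 0 ≤ lam := le_trans (by norm_num) half_le_lam

/-- `nl x ≤ x log (1 / k) + k - x` -/
theorem nl_le {x k : ℝ} (hx : 0 ≤ x) (hk : 0 < k) :
    Real.negMulLog x ≤ -(x * Real.log k) + k - x := by
  rcases hx.eq_or_lt with rfl | hx
  · simpa using hk.le
  have h := Real.log_le_sub_one_of_pos (div_pos hk hx)
  rw [Real.log_div hk.ne' hx.ne'] at h
  have h2 := mul_le_mul_of_nonneg_left h hx.le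
  have h3 : x * (k / x - 1) = k - x := by field_simp
  rw [Real.negMulLog]
  nlinarith

/-! ### The dynamics -/

/-- `y ↦ ⌊3 y / 2⌋` -/
def f (y : ℕ) : ℕ := 3 * y / 2

/-- the parity of the `i`-th point of the orbit of `y` -/
def dg (i y : ℕ) : ℕ := f^[i] y % 2

/-- the orbit of `z` starts with the parity word `w` -/
def ind {h : ℕ} (w : Fin h → Bool) (z : ℕ) : Prop := ∀ j : Fin h, (Odd (f^[j] z) ↔ w j = true)

open Classical in
/-- the centred indicator of `ind w` -/
noncomputable def xi {h : ℕ} (w : Fin h → Bool) (z : ℕ) : ℝ :=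
  (if ind w z then 1 else 0) - 1 / 2 ^ h

/-- the number of occurrences of `w` at the places `i < k`, minus `k / 2 ^ h` -/
noncomputable def dev {h : ℕ} (w : Fin h → Bool) (k z : ℕ) : ℝ := ∑ i ∈ range k, xi w (f^[i] z)

open Classical in
/-- the classes modulo `2 ^ M` with a deviation of size `θ` read on the first `M` parities -/
noncomputable def bad {h : ℕ} (w : Fin h → Bool) (θ : ℝ) (M : ℕ) : Finset ℕ :=
  (range (2 ^ M)).filter fun z => ∃ k, k + h ≤ M ∧ θ ≤ |dev w k z|

theorem mem_bad {h : ℕ} {w : Fin h → Bool} {θ : ℝ} {M z : ℕ} :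
    z ∈ bad w θ M ↔ z < 2 ^ M ∧ ∃ k, k + h ≤ M ∧ θ ≤ |dev w k z| := by
  simp [bad]

/-- the weight `2 ^ i / 3 ^ (i + 1)` of the `i`-th parity modulo `2 ^ N` -/
def al (N i : ℕ) : ZMod (2 ^ N) := 2 ^ i * (3 : ZMod (2 ^ N))⁻¹ ^ (i + 1)

/-- the law of `w + ∑ i < L, d i * al i`, with `w` uniform in `[0, 2 ^ L)` and fair bits `d i` -/
noncomputable def law (L N : ℕ) : GA (ZMod (2 ^ N)) := pr 2 L (al N) * ap (2 ^ L) 1

theorem three_mul_inv (N : ℕ) : (3 : ZMod (2 ^ N)) * (3 : ZMod (2 ^ N))⁻¹ = 1 := by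
  have h := ZMod.coe_mul_inv_eq_one (n := 2 ^ N) 3 (Nat.Coprime.pow_right N (by norm_num))
  simpa using h

theorem al_succ (N t : ℕ) : 3 • al N (t + 1) = 2 • al N t := by
  simp only [al, nsmul_eq_mul]
  push_cast
  linear_combination (2 ^ (t + 1) * (3 : ZMod (2 ^ N))⁻¹ ^ (t + 1)) * three_mul_inv N

theorem Pm.law (L N : ℕ) : Pm (law L N) :=
  (Pm.pr (by norm_num) _ _).mul (Pm.ap Nat.one_le_two_pow _)

theorem two_mul_f (y : ℕ) : 2 * f y + y % 2 = 3 * y := by unfold f; omega

theorem two_mul_iter (i y : ℕ) : 2 * f^[i + 1] y + dg i y = 3 * f^[i] y := by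
  rw [Function.iterate_succ_apply', dg]; exact two_mul_f _

theorem dg_lt (i y : ℕ) : dg i y < 2 := Nat.mod_lt _ (by norm_num)

theorem iter_add (i x y : ℕ) : f^[i] (x + 2 ^ i * y) = f^[i] x + 3 ^ i * y := by
  induction i generalizing y with
  | zero => simp
  | succ i ih =>
    rw [Function.iterate_succ_apply', Function.iterate_succ_apply', pow_succ, mul_assoc, ih,
      pow_succ, mul_left_comm, mul_comm (3 ^ i) 3, mul_assoc]
    unfold f; omega

theorem iter_add_pow {i M : ℕ} (h : i ≤ M) (x y : ℕ) :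
    f^[i] (x + 2 ^ M * y) = f^[i] x + 2 ^ (M - i) * (3 ^ i * y) := by
  obtain ⟨j, rfl⟩ := Nat.exists_eq_add_of_le h
  rw [pow_add, mul_assoc, iter_add, Nat.add_sub_cancel_left, mul_left_comm]

/-- `φ` depends only on the class modulo `2 ^ M` -/
def Per {α : Type} (M : ℕ) (φ : ℕ → α) : Prop := ∀ x y, φ (x + 2 ^ M * y) = φ x

theorem Per.mono {α : Type} {M M' : ℕ} {φ : ℕ → α} (h : Per M φ) (hM : M ≤ M') : Per M' φ := by
  obtain ⟨j, rfl⟩ := Nat.exists_eq_add_of_le hM
  intro x y
  rw [pow_add, mul_assoc, h]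

theorem Per.iter {α : Type} {M : ℕ} {φ : ℕ → α} (h : Per M φ) (i : ℕ) :
    Per (i + M) fun z => φ (f^[i] z) := by
  intro x y
  simp only
  rw [iter_add_pow (Nat.le_add_right i M), Nat.add_sub_cancel_left, h]

theorem Per.mod {α : Type} {M : ℕ} {φ : ℕ → α} (h : Per M φ) (z : ℕ) : φ (z % 2 ^ M) = φ z := by
  conv_rhs => rw [← Nat.mod_add_div z (2 ^ M), h]

theorem per_dg (i : ℕ) : Per (i + 1) (dg i) :=
  Per.iter (M := 1) (φ := fun z => z % 2) (fun x y => by simp) i

theorem per_ind {h : ℕ} (w : Fin h → Bool) : Per h (ind w) := by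
  intro x y
  have : ∀ j : Fin h, Odd (f^[j] (x + 2 ^ h * y)) ↔ Odd (f^[j] x) := fun j => by
    have := (per_dg j).mono (Nat.succ_le_of_lt j.2) x y
    simp only [dg] at this
    rw [Nat.odd_iff, Nat.odd_iff, this]
  simp only [ind, this]

theorem per_xi {h : ℕ} (w : Fin h → Bool) : Per h (xi w) := by
  intro x y
  unfold xi
  rw [per_ind w x y]

theorem per_dev {h : ℕ} (w : Fin h → Bool) {k M : ℕ} (hk : k + h ≤ M) : Per M (dev w k) := by
  intro x y
  refine sum_congr rfl fun i hi => ?_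
  exact ((per_xi w).iter i).mono (by have := mem_range.1 hi; omega) x y

theorem abs_xi_le {h : ℕ} (w : Fin h → Bool) (z : ℕ) : |xi w z| ≤ 1 := by
  have h0 : (0 : ℝ) ≤ 1 / 2 ^ h := by positivity
  have h1 : (1 : ℝ) / 2 ^ h ≤ 1 := by
    rw [div_le_one (by positivity)]; exact one_le_pow₀ (by norm_num)
  rw [xi, abs_le]
  split_ifs <;> constructor <;> linarith

theorem dev_add {h : ℕ} (w : Fin h → Bool) (k l z : ℕ) :
    dev w (k + l) z = dev w k z + dev w l (f^[k] z) := by
  simp only [dev, sum_range_add]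
  congr 1
  exact sum_congr rfl fun i _ => by rw [add_comm, Function.iterate_add_apply]

theorem abs_dev_le {h : ℕ} (w : Fin h → Bool) (k z : ℕ) : |dev w k z| ≤ k := by
  refine (abs_sum_le_sum_abs _ _).trans ?_
  simpa using sum_le_card_nsmul (range k) _ 1 fun i _ => abs_xi_le w (f^[i] z)

end Pool.Agent.P.MP_fc15d7_nt.HZ
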