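import Pool.Agent.P.MP_fc15d7_nt.HZ.Iface

/-! Step BAD. -/

set_option autoImplicit false
set_option linter.unusedSectionVars false

namespace Pool.Agent.P.MP_fc15d7_nt.HZ

open Finset Filter Topology

namespace BAD

theorem ev_exp (h : ℕ) {δ : ℝ} (hδ : 0 < δ) :
    ∀ᶠ L : ℕ in atTop, 2 * ((L : ℝ) + 1) * h ≤ Real.exp (δ * L) := by
  filter_upwards [tendsto_natCast_atTop_atTop.eventually_ge_atTop (8 * (h : ℝ) / δ ^ 2),
    eventually_ge_atTop 1] with L h1 h2
  have h2' : (1 : ℝ) ≤ L := by exact_mod_cast h2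
  have h3 := Real.quadratic_le_exp_of_nonneg (show 0 ≤ δ * L by positivity)
  rw [div_le_iff₀ (by positivity)] at h1
  have h4 : 8 * (h : ℝ) * L ≤ L * δ ^ 2 * L := mul_le_mul_of_nonneg_right h1 (by positivity)
  have h5 : (h : ℝ) * 1 ≤ h * L := mul_le_mul_of_nonneg_left h2' (Nat.cast_nonneg _)
  have h6 : 0 ≤ δ * L := by positivity
  nlinarith

theorem card_bad (hLD : S_LD) (hMEAN : S_MEAN) {h : ℕ} (hh : 1 ≤ h) (w : Fin h → Bool)
    (θ : ℝ) {s : ℝ} (s0 : 0 ≤ s) (s1 : s ≤ 1) (M : ℕ) :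
    ((bad w θ M).card : ℝ) ≤ (M + 1) * (2 * (h * 2 ^ M * Real.exp (s ^ 2 * M - s * θ / h))) := by
  classical
  have hsub : bad w θ M ⊆ ((range (M + 1)).filter fun k => k + h ≤ M).biUnion fun k =>
      ((range (2 ^ M)).filter fun z => θ ≤ dev w k z) ∪
        (range (2 ^ M)).filter fun z => θ ≤ -dev w k z := by
    intro z hz
    obtain ⟨h1, k, h2, h3⟩ := mem_bad.1 hz
    refine mem_biUnion.2 ⟨k, mem_filter.2 ⟨mem_range.2 (by omega), h2⟩, mem_union.2 ?_⟩
    rcases le_abs.1 h3 with h4 | h4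
    · exact Or.inl (mem_filter.2 ⟨mem_range.2 h1, h4⟩)
    · exact Or.inr (mem_filter.2 ⟨mem_range.2 h1, h4⟩)
  have h1 : ((bad w θ M).card : ℝ) ≤ ∑ k ∈ (range (M + 1)).filter fun k => k + h ≤ M,
      ((((range (2 ^ M)).filter fun z => θ ≤ dev w k z) ∪
        (range (2 ^ M)).filter fun z => θ ≤ -dev w k z).card : ℝ) := by
    exact_mod_cast (card_le_card hsub).trans card_biUnion_le
  refine h1.trans ((sum_le_card_nsmul _ _
    (2 * (h * 2 ^ M * Real.exp (s ^ 2 * M - s * θ / h))) fun k hk => ?_).trans ?_)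
  · have hk' := (mem_filter.1 hk).2
    have a1 := hLD h M k (xi w) s θ ((range (2 ^ M)).filter fun z => θ ≤ dev w k z) hh (per_xi w)
      (abs_xi_le w) (hMEAN h w) s0 s1 hk' fun z hz =>
        ⟨mem_range.1 (mem_filter.1 hz).1, (mem_filter.1 hz).2⟩
    have a2 := hLD h M k (fun z => -xi w z) s θ ((range (2 ^ M)).filter fun z => θ ≤ -dev w k z) hh
      (fun x y => by simp only [per_xi w x y]) (fun z => by rw [abs_neg]; exact abs_xi_le w z)
      (by rw [sum_neg_distrib, hMEAN, neg_zero]) s0 s1 hk' fun z hz =>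
        ⟨mem_range.1 (mem_filter.1 hz).1, by rw [sum_neg_distrib]; exact (mem_filter.1 hz).2⟩
    have a3 : ((((range (2 ^ M)).filter fun z => θ ≤ dev w k z) ∪
        (range (2 ^ M)).filter fun z => θ ≤ -dev w k z).card : ℝ) ≤
        (((range (2 ^ M)).filter fun z => θ ≤ dev w k z).card : ℝ) +
          (((range (2 ^ M)).filter fun z => θ ≤ -dev w k z).card : ℝ) := by
      exact_mod_cast card_union_le _ _
    linarith
  · rw [nsmul_eq_mul]
    refine mul_le_mul_of_nonneg_right ?_ (by positivity)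
    have := (card_filter_le (range (M + 1)) fun k => k + h ≤ M).trans_eq (card_range _)
    exact_mod_cast this

end BAD

theorem p_BAD (hLD : S_LD) (hMEAN : S_MEAN) :
    S_BAD := by
  intro h w η hη
  rcases Nat.eq_zero_or_pos h with rfl | hh
  · refine ⟨1, one_pos, ?_⟩
    filter_upwards [eventually_ge_atTop 1] with L hL M _
    have hL' : (1 : ℝ) ≤ L := by exact_mod_cast hL
    have hx : ∀ z, xi w z = 0 := fun z => by
      have : ind w z := fun j => j.elim0
      simp [xi, this]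
    have : bad w (η * L) M = ∅ := by
      refine eq_empty_of_forall_notMem fun z hz => ?_
      obtain ⟨_, k, _, h3⟩ := mem_bad.1 hz
      simp only [dev, hx, sum_const_zero, abs_zero] at h3
      nlinarith
    rw [this, card_empty, Nat.cast_zero]
    positivity
  · have h0 : (0 : ℝ) < h := by exact_mod_cast hh
    obtain ⟨s, s0, s1, s2⟩ : ∃ s : ℝ, 0 < s ∧ s ≤ 1 ∧ s ≤ η / (2 * h) :=
      ⟨min 1 (η / (2 * h)), lt_min one_pos (by positivity), min_le_left _ _, min_le_right _ _⟩
    have hδ : 0 < s * η / (4 * h) := by positivity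
    refine ⟨_, hδ, ?_⟩
    filter_upwards [BAD.ev_exp h hδ] with L hL M hM
    have hM' : (M : ℝ) ≤ L := by exact_mod_cast hM
    have e1 : s ^ 2 * M - s * (η * L) / h ≤
        -(s * η / (4 * h) * L) + -(s * η / (4 * h) * L) := by
      have a1 : s ^ 2 * M ≤ s * (η / (2 * h)) * L := by
        rw [pow_two]
        exact mul_le_mul (mul_le_mul_of_nonneg_left s2 s0.le) hM' (Nat.cast_nonneg _)
          (by positivity)
      have a2 : s * (η / (2 * h)) * L - s * (η * L) / h =
          -(s * η / (4 * h) * L) + -(s * η / (4 * h) * L) := by field_simp; ring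
      linarith
    have e2 := Real.exp_le_exp.2 e1
    rw [Real.exp_add] at e2
    generalize s * η / (4 * h) * L = t at hL e2 ⊢
    have e3 : Real.exp t * Real.exp (-t) = 1 := by rw [← Real.exp_add]; simp
    have e4 : 2 * ((M : ℝ) + 1) * h ≤ Real.exp t :=
      le_trans (mul_le_mul_of_nonneg_right (by linarith) h0.le) hL
    calc ((bad w (η * L) M).card : ℝ)
        ≤ (M + 1) * (2 * (h * 2 ^ M * Real.exp (s ^ 2 * M - s * (η * L) / h))) :=
          BAD.card_bad hLD hMEAN hh w _ s0.le s1 M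
      _ = (2 * ((M : ℝ) + 1) * h) * (2 ^ M * Real.exp (s ^ 2 * M - s * (η * L) / h)) := by ring
      _ ≤ Real.exp t * (2 ^ M * (Real.exp (-t) * Real.exp (-t))) :=
          mul_le_mul e4 (mul_le_mul_of_nonneg_left e2 (by positivity)) (by positivity)
            (by positivity)
      _ = 2 ^ M * Real.exp (-t) * (Real.exp t * Real.exp (-t)) := by ring
      _ = _ := by rw [e3, mul_one]

end Pool.Agent.P.MP_fc15d7_nt.HZ
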