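import Pool.Agent.P.MP_fc15d7_nt.HZ.Iface

/-! Step CELL. -/

set_option autoImplicit false
set_option linter.unusedSectionVars false

namespace Pool.Agent.P.MP_fc15d7_nt.HZ

open Finset Filter Topology

theorem p_CELL (hMONO : S_MONO) (hSUB : S_SUB) (hCONT : S_CONT) (hSTEP : S_STEP) (hCOST : S_COST) (hINV : S_INV) :
    S_CELL := by
  intro G _ _ a n Q p hQ ha hp
  obtain ⟨S, hS⟩ : ∃ S : ℕ → GA G, ∀ t, S t = pr 3 t a * ap Q (3 • a 0) := ⟨_, fun _ => rfl⟩
  have pS : ∀ t, Pm (S t) := fun t => hS t ▸ (Pm.pr (by norm_num) _ _).mul (Pm.ap hQ _)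
  have key : ∀ t : ℕ, lam * (HH (S t * p) - HH (S 0 * p)) - 3 * t * er G Q ≤
      HH (pr 2 t a * p) - HH p := fun t => by
    induction t with
    | zero => simp [pr_zero]
    | succ t ih =>
      have pX := (Pm.pr (R := 2) (by norm_num) t a).mul hp
      have pT := Pm.ap (R := 2) (by norm_num) (a t)
      have pZ := (pS t).mul hp
      have pY := (pS t).mul pX
      obtain ⟨i1, i2⟩ := hINV G a Q t hQ ha
      rw [← hS] at i1 i2
      have d1 : n1 (S t * (pr 2 t a * p) - S t * p) ≤ 2 / Q := by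
        rw [show S t * (pr 2 t a * p) - S t * p = p * (pr 2 t a * S t - S t) by ring]
        exact (n1_mul_le hp _).trans i2
      have d2 : n1 (ap 2 (a t) * (S t * p) - ap 2 (a t) * (S t * (pr 2 t a * p))) ≤ 2 / Q := by
        rw [← mul_sub]
        exact (n1_mul_le pT _).trans ((n1_sub_comm _ _).trans_le d1)
      have d3 : n1 (e (3 • a t) * (S t * p) - S t * p) ≤ 2 / Q := by
        rw [show e (3 • a t) * (S t * p) - S t * p = p * (e (3 • a t) * S t - S t) by ring]
        exact (n1_mul_le hp _).trans i1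
      have h1 := hSUB G (a t) _ _ (pS t) pX
      have h2 := hCONT G _ _ Q hQ pY pZ d1
      have h3 := hCONT G _ _ Q hQ (pT.mul pZ) (pT.mul pY) d2
      have h4 := hSTEP G (a t) _ Q hQ pZ d3
      have e1 : S (t + 1) * p = ap 3 (a t) * (S t * p) := by rw [hS, hS, pr_succ]; ring
      rw [e1, pr_succ, mul_assoc (ap 2 (a t))]
      push_cast
      linarith
  have h1 := key n
  have h2 := hMONO G _ _ (Pm.ap hQ (3 • a 0)) ((Pm.pr (R := 3) (by norm_num) n a).mul hp)
  have h3 := hCOST G (3 • a 0) p Q hQ hp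
  rw [hS, hS, pr_zero, one_mul, mul_comm (pr 3 n a), mul_assoc] at h1
  have h4 := mul_le_mul_of_nonneg_left h2 lam_nonneg
  have h5 := mul_le_mul_of_nonneg_left h3 lam_nonneg
  have h6 := mul_le_mul_of_nonneg_right lam_le_one (Real.log_natCast_nonneg Q)
  linarith

end Pool.Agent.P.MP_fc15d7_nt.HZ
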