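import Pool.Agent.P.MP_fc15d7_nt.HZ.Iface

/-! Step CONT. -/

set_option autoImplicit false
set_option linter.unusedSectionVars false

namespace Pool.Agent.P.MP_fc15d7_nt.HZ

open Finset Filter Topology

namespace CONTb

theorem half {b s : ℝ} (hb : 0 ≤ b) (hs : 0 ≤ s) :
    -(b * Real.log (b + s)) ≤ Real.negMulLog b := by
  rcases hb.eq_or_lt with rfl | hb
  · simp
  have := mul_le_mul_of_nonneg_left (Real.log_le_log hb (le_add_of_nonneg_right hs)) hb.le
  rw [Real.negMulLog]
  linarith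

theorem pw {a b k : ℝ} (ha : 0 ≤ a) (hb : 0 ≤ b) (hb1 : b ≤ 1) (hk : 0 < k) :
    Real.negMulLog a ≤
      Real.negMulLog b + (|a - b| + (a - b)) / 2 * -Real.log k + k - (a - b) := by
  rcases le_or_gt b a with h | h
  · have hs : 0 ≤ a - b := sub_nonneg.2 h
    have h1 := half hb hs
    have h2 := half hs hb
    have h3 := nl_le hs hk
    rw [add_sub_cancel] at h1
    rw [sub_add_cancel] at h2
    rw [abs_of_nonneg hs, Real.negMulLog]
    linarith
  · have h1 := nl_le ha (ha.trans_lt h)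
    have h2 := mul_nonneg (sub_nonneg.2 h.le) (neg_nonneg.2 (Real.log_nonpos hb hb1))
    rw [abs_of_neg (sub_neg.2 h), Real.negMulLog.eq_1 b]
    linarith

end CONTb

theorem p_CONT :
    S_CONT := by
  intro G _ _ p q Q hQ hp hq h
  have hQ' : (1 : ℝ) ≤ Q := by exact_mod_cast hQ
  have hG : (1 : ℝ) ≤ Fintype.card G := by exact_mod_cast Fintype.card_pos
  have h1 := sum_le_sum fun x (_ : x ∈ univ) => CONTb.pw (hp.1 x) (hq.1 x) (hq.le_one x)
    (k := ((Fintype.card G : ℝ) * Q)⁻¹) (by positivity)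
  have h2 : ∑ x, (co p x - co q x) = 0 := by rw [sum_sub_distrib, hp.2, hq.2, sub_self]
  rw [sum_sub_distrib, sum_add_distrib, sum_add_distrib, ← sum_mul, ← sum_div, sum_add_distrib,
    h2, sum_const, card_univ, nsmul_eq_mul, Real.log_inv, neg_neg,
    Real.log_mul (by positivity) (by positivity)] at h1
  have h3 : (Fintype.card G : ℝ) * ((Fintype.card G : ℝ) * Q)⁻¹ = 1 / Q := by field_simp
  have h4 : 0 ≤ Real.log (Fintype.card G) + Real.log Q :=
    add_nonneg (Real.log_nonneg hG) (Real.log_nonneg hQ')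
  have h5 : ∑ x, |co p x - co q x| ≤ 2 / Q := h
  have h6 := mul_le_mul_of_nonneg_right h5 h4
  have h7 : (0 : ℝ) ≤ 1 / Q := by positivity
  have h8 : er G Q = 2 * (1 / Q) + 2 / Q * (Real.log (Fintype.card G) + Real.log Q) / 2 := by
    rw [er]; ring
  rw [h8, HH, HH]
  linarith

end Pool.Agent.P.MP_fc15d7_nt.HZ
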