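import Pool.Agent.P.MP_fc15d7_nt.HZ.Iface

/-! Step COST. -/

set_option autoImplicit false
set_option linter.unusedSectionVars false

namespace Pool.Agent.P.MP_fc15d7_nt.HZ

open Finset Filter Topology

theorem cost_sub {ι : Type} (s : Finset ι) (x : ι → ℝ) (h : ∀ j ∈ s, 0 ≤ x j) :
    Real.negMulLog (∑ j ∈ s, x j) ≤ ∑ j ∈ s, Real.negMulLog (x j) := by
  rw [Real.negMulLog, ← sum_neg_distrib, sum_mul]
  refine sum_le_sum fun j hj => ?_
  rcases (h j hj).eq_or_lt with e | e
  · simp [← e]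
  · rw [Real.negMulLog, neg_mul, neg_mul, neg_le_neg_iff]
    exact mul_le_mul_of_nonneg_left (Real.log_le_log e (single_le_sum h hj)) e.le

theorem p_COST :
    S_COST := by
  intro G _ _ a p Q hQ hp
  have hQ' : (0 : ℝ) < Q := by exact_mod_cast hQ
  have h1 : ∀ x, Real.negMulLog (co (ap Q a * p) x) ≤ ∑ j ∈ range Q,
      (Real.negMulLog (co p (x - j • a)) + co p (x - j • a) * Real.log Q) / Q := fun x => by
    rw [co_ap_mul, ← sum_div, sum_add_distrib, ← sum_mul, le_div_iff₀ hQ', div_eq_mul_inv,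
      Real.negMulLog_mul, Real.negMulLog.eq_1 (Q : ℝ)⁻¹, Real.log_inv]
    have h2 := cost_sub (range Q) (fun j => co p (x - j • a)) fun j _ => hp.1 _
    refine le_trans (le_of_eq ?_) (add_le_add h2 le_rfl)
    field_simp
  refine (sum_le_sum fun x _ => h1 x).trans (le_of_eq ?_)
  rw [sum_comm]
  have h3 : ∀ j : ℕ, ∑ x, (Real.negMulLog (co p (x - j • a)) + co p (x - j • a) * Real.log Q) / Q =
      (HH p + Real.log Q) / Q := fun j => by
    rw [← sum_div, sum_sub (fun y => Real.negMulLog (co p y) + co p y * Real.log Q),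
      sum_add_distrib, ← sum_mul, hp.2, one_mul, HH]
  simp only [h3, sum_const, card_range, nsmul_eq_mul]
  field_simp

end Pool.Agent.P.MP_fc15d7_nt.HZ
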