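import Pool.Agent.P.MP_fc15d7_nt.HZ.Iface

/-! Step DIG. -/

set_option autoImplicit false
set_option linter.unusedSectionVars false

namespace Pool.Agent.P.MP_fc15d7_nt.HZ

open Finset Filter Topology

theorem dig_succ (n : ℕ) (δ : ℕ → ℤ) :
    ∑ t ∈ range (n + 1), δ t * 2 ^ t * 3 ^ (n + 1 - 1 - t) =
      3 * ∑ t ∈ range n, δ t * 2 ^ t * 3 ^ (n - 1 - t) + δ n * 2 ^ n := by
  rw [sum_range_succ, mul_sum, Nat.add_sub_cancel, Nat.sub_self, pow_zero, mul_one]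
  refine congrArg (· + δ n * 2 ^ n) (sum_congr rfl fun t ht => ?_)
  have := mem_range.1 ht
  rw [show n - t = n - 1 - t + 1 by omega, pow_succ]; ring

theorem dig_aux (n : ℕ) (δ : ℕ → ℤ) (h : ∀ t < n, |δ t| ≤ 2) :
    |∑ t ∈ range n, δ t * 2 ^ t * 3 ^ (n - 1 - t)| ≤ 2 * (3 ^ n - 2 ^ n) ∧
      (∑ t ∈ range n, δ t * 2 ^ t * 3 ^ (n - 1 - t) = 0 → ∀ t < n, δ t = 0) := by
  induction n with
  | zero => simp
  | succ n ih =>
    obtain ⟨h1, h2⟩ := ih fun t ht => h t (by omega)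
    have h3 := h n (by omega)
    have p : (0 : ℤ) < 2 ^ n := by positivity
    rw [dig_succ]
    refine ⟨?_, fun h0 t ht => ?_⟩
    · refine (abs_add_le _ _).trans ?_
      rw [abs_mul, abs_mul, abs_of_pos p, pow_succ, pow_succ, abs_of_pos (by norm_num : (0 : ℤ) < 3)]
      nlinarith
    · have h4 : (3 : ℤ) ∣ δ n * 2 ^ n := ⟨-∑ t ∈ range n, δ t * 2 ^ t * 3 ^ (n - 1 - t), by linarith⟩
      have h5 : (3 : ℤ) ∣ δ n :=
        IsCoprime.dvd_of_dvd_mul_right (IsCoprime.pow_right ⟨1, -1, by norm_num⟩) h4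
      have h6 : δ n = 0 := by rw [abs_le] at h3; omega
      rcases Nat.lt_succ_iff_lt_or_eq.1 ht with ht | rfl
      · exact h2 (by rw [h6] at h0; linarith) t ht
      · exact h6

theorem p_DIG :
    S_DIG := by
  intro n δ h
  obtain ⟨h1, h2⟩ := dig_aux n δ h
  have p : (0 : ℤ) < 2 ^ n := by positivity
  exact ⟨by linarith, h2⟩

end Pool.Agent.P.MP_fc15d7_nt.HZ
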