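import Pool.Agent.P.MP_fc15d7_nt.HZ.Iface

/-! Step ENT. -/

set_option autoImplicit false
set_option linter.unusedSectionVars false

namespace Pool.Agent.P.MP_fc15d7_nt.HZ

open Finset Filter Topology

theorem ent_err {L gq N : ℝ} (hL : 1 ≤ L) (_h0 : 0 ≤ gq) (h1 : gq ≤ L) (hN0 : 0 ≤ N)
    (hN : N ≤ 2 * L) :
    Real.log (L ^ 2) + 3 * gq * ((2 + N * Real.log 2 + Real.log (L ^ 2)) / L ^ 2) ≤
      2 * Real.log L + 18 := by
  have hl : Real.log (L ^ 2) = 2 * Real.log L := by rw [Real.log_pow]; norm_num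
  have h2 : Real.log 2 ≤ 1 := by have := Real.log_two_lt_d9; linarith
  have h3 : Real.log L ≤ L := by have := Real.log_le_sub_one_of_pos (by linarith : 0 < L); linarith
  have h4 : 0 ≤ Real.log L := Real.log_nonneg hL
  have h5 : 0 ≤ Real.log 2 := Real.log_nonneg (by norm_num)
  rw [hl]
  have h6 : 2 + N * Real.log 2 + 2 * Real.log L ≤ 6 * L := by nlinarith
  have h7 : gq * (2 + N * Real.log 2 + 2 * Real.log L) ≤ L * (6 * L) :=
    mul_le_mul h1 h6 (by positivity) (by linarith)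
  have h8 : 3 * gq * ((2 + N * Real.log 2 + 2 * Real.log L) / L ^ 2) ≤ 18 := by
    rw [← mul_div_assoc, div_le_iff₀ (by positivity)]
    nlinarith
  linarith

theorem p_ENT (hENTA : S_ENTA) :
    S_ENT := by
  intro c ε hc0 hc1 hε
  have h2 : Real.log 2 ≤ 1 := by have := Real.log_two_lt_d9; linarith
  have h2' : 0 < Real.log 2 := Real.log_pos (by norm_num)
  have h3 : Real.log 3 ≤ 2 := by
    have := Real.log_le_sub_one_of_pos (by norm_num : (0 : ℝ) < 3); linarith
  have h3' : 0 < Real.log 3 := Real.log_pos (by norm_num)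
  have hc : 0 < 1 - c := by linarith
  obtain ⟨g, hg⟩ := exists_nat_ge (2 / (1 - c))
  rw [div_le_iff₀ hc] at hg
  have hg0 : (1 : ℝ) ≤ g := by nlinarith [Nat.cast_nonneg (α := ℝ) g]
  set κ : ℝ := 1 / (4 * (1 - c)) with hκ
  have hκ0 : 0 < κ := by positivity
  obtain ⟨m, hm⟩ := exists_nat_ge (max (2 * (4 + 2 * κ) / ε) (2 / c))
  have hm1 : 2 * (4 + 2 * κ) ≤ m * ε := (div_le_iff₀ hε).1 ((le_max_left _ _).trans hm)
  have hm2 : 2 ≤ m * c := (div_le_iff₀ hc0).1 ((le_max_right _ _).trans hm)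
  have hm0 : (1 : ℝ) ≤ m := by nlinarith [Nat.cast_nonneg (α := ℝ) m]
  obtain ⟨M, hM⟩ : ∃ M : ℕ, M = m * (g + 1) := ⟨_, rfl⟩
  have hMr : (M : ℝ) = m * (g + 1) := by rw [hM]; push_cast; ring
  have hcM : 4 ≤ c * M := by rw [hMr]; nlinarith
  have hMpos : 0 < M := by
    rcases Nat.eq_zero_or_pos M with h | h
    · rw [h] at hcM; norm_num at hcM
    · exact h
  have hx : 0 < (c * M - 2) * Real.log 2 / (g * Real.log 3) :=
    div_pos (mul_pos (by linarith) h2') (by positivity)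
  obtain ⟨k, hk⟩ : ∃ k : ℕ, ⌈(c * M - 2) * Real.log 2 / (g * Real.log 3)⌉₊ = k + 1 :=
    Nat.exists_eq_succ_of_ne_zero (Nat.ceil_pos.2 hx).ne'
  have hk1 : (k : ℝ) * g * Real.log 3 < (c * M - 2) * Real.log 2 := by
    have := Nat.ceil_lt_add_one hx.le
    rw [hk] at this
    push_cast at this
    have h : (k : ℝ) < (c * M - 2) * Real.log 2 / (g * Real.log 3) := by linarith
    rwa [lt_div_iff₀ (by positivity), ← mul_assoc] at h
  have hk2 : (c * M - 2) * Real.log 2 ≤ (k + 1) * (g * Real.log 3) := by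
    have := Nat.le_ceil ((c * M - 2) * Real.log 2 / (g * Real.log 3))
    rw [hk, div_le_iff₀ (by positivity)] at this
    exact_mod_cast this
  have hd : m * (1 - c) / 4 ≤ lam * m - k := by
    have e1 : c * M ≤ (1 + c) / 2 * m * g := by
      rw [hMr]
      have : c * (g + 1) ≤ (1 + c) / 2 * g := by nlinarith
      nlinarith
    have e2 : (k : ℝ) * (g * Real.log 3) ≤ ((1 + c) / 2 * m * lam) * (g * Real.log 3) := by
      have e3 : c * M * Real.log 2 ≤ (1 + c) / 2 * m * g * Real.log 2 :=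
        mul_le_mul_of_nonneg_right e1 h2'.le
      have e4 : ((1 + c) / 2 * m * lam) * (g * Real.log 3) = (1 + c) / 2 * m * g * Real.log 2 := by
        rw [← lam_mul]; ring
      nlinarith
    have e5 : (k : ℝ) ≤ (1 + c) / 2 * m * lam := le_of_mul_le_mul_right e2 (by positivity)
    have e6 : m * (1 - c) * (1 / 2) ≤ m * (1 - c) * lam :=
      mul_le_mul_of_nonneg_left half_le_lam (by positivity)
    nlinarith
  have hd0 : 0 < lam * m - k := lt_of_lt_of_le (by positivity) hd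
  have hq : (m : ℝ) / (16 * (lam * m - k)) ≤ κ := by
    rw [hκ, div_le_div_iff₀ (by positivity) (by positivity)]
    linarith
  obtain ⟨q0, hq0⟩ := hENTA m g k (M + 1) ((1 + c) * M - 1) (by rw [← hM]; linarith)
    (by nlinarith) (by linarith)
  have ev1 : ∀ᶠ L : ℕ in atTop, Real.log L ≤ ε / (8 * m) * L := by
    have := (Real.isLittleO_log_id_atTop.bound (c := ε / (8 * m)) (by positivity))
    filter_upwards [tendsto_natCast_atTop_atTop.eventually this] with L hL
    simp only [id, Real.norm_eq_abs, Nat.abs_cast] at hL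
    exact (le_abs_self _).trans hL
  have ev2 : ∀ᶠ L : ℕ in atTop, 4 * (M + 18 * m) / ε ≤ (L : ℝ) :=
    tendsto_natCast_atTop_atTop.eventually_ge_atTop _
  filter_upwards [ev1, ev2, eventually_ge_atTop ((q0 + M) * M)] with L hL1 hL2 hL3
  obtain ⟨q, hqd⟩ : ∃ q, q = L / M := ⟨_, rfl⟩
  have hq1 : q0 + M ≤ q := by rw [hqd]; exact (Nat.le_div_iff_mul_le hMpos).2 hL3
  have hq2 : M * q ≤ L := by rw [hqd]; exact Nat.mul_div_le L M
  have hq3 : L ≤ M * q + M := by
    have := Nat.div_add_mod L M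
    have := Nat.mod_lt L hMpos
    rw [hqd]; omega
  have hL0 : 1 ≤ L := le_trans (Nat.mul_pos hMpos (by omega)) hq2
  have r1 : (M : ℝ) ≤ q := by exact_mod_cast (by omega : M ≤ q)
  have r2 : (M : ℝ) * q ≤ L := by exact_mod_cast hq2
  have r3 : (L : ℝ) ≤ M * q + M := by exact_mod_cast hq3
  have r0 : (1 : ℝ) ≤ L := by exact_mod_cast hL0
  have rM : (1 : ℝ) ≤ M := by exact_mod_cast hMpos
  have rq : (0 : ℝ) ≤ q := Nat.cast_nonneg q
  have d1 : (⌊c * L⌋₊ : ℝ) ≤ c * L := Nat.floor_le (by positivity)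
  have d2 : c * L < ⌊c * L⌋₊ + 1 := Nat.lt_floor_add_one _
  have d0 : (0 : ℝ) ≤ ⌊c * L⌋₊ := Nat.cast_nonneg _
  have key := hq0 q (by omega) L (L + ⌊c * L⌋₊) (L ^ 2) (Nat.one_le_pow _ _ hL0)
    (by rw [← hM]; exact hq2) (by nlinarith) (by push_cast; nlinarith)
  refine le_trans ?_ key
  have s1 : (m : ℝ) * (g * q) ≤ L := by rw [hMr] at r2; nlinarith
  have s2 : (m : ℝ) * q ≤ L := by rw [hMr] at r2; nlinarith [mul_nonneg (mul_nonneg (by linarith : (0 : ℝ) ≤ m) (by linarith : (0 : ℝ) ≤ g)) rq]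
  have gq0 : (0 : ℝ) ≤ g * q := by positivity
  have hE := ent_err (L := L) (gq := g * q) (N := ((L + ⌊c * L⌋₊ : ℕ) : ℝ)) r0 gq0
    (by nlinarith) (Nat.cast_nonneg _) (by push_cast; nlinarith)
  have hE' := mul_le_mul_of_nonneg_left hE (by linarith : (0 : ℝ) ≤ m)
  rw [div_le_iff₀ hε] at hL2
  have t1 : (m : ℝ) * Real.log L ≤ ε / 8 * L := by
    have := mul_le_mul_of_nonneg_left hL1 (by linarith : (0 : ℝ) ≤ m)
    have e : (m : ℝ) * (ε / (8 * m) * L) = ε / 8 * L := by field_simp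
    linarith
  -- the main terms
  have t2 : 2 * q + 2 * (g * q) * (1 + κ) ≤ ε / 2 * L := by
    have e1 : (m : ℝ) * (2 * q + 2 * (g * q) * (1 + κ)) ≤ (4 + 2 * κ) * L := by
      have := mul_le_mul_of_nonneg_right s1 (by linarith : 0 ≤ 1 + κ)
      nlinarith
    have e2 : (4 + 2 * κ) * L ≤ m * (ε / 2 * L) := by nlinarith
    exact le_of_mul_le_mul_left (e1.trans e2) (by linarith)
  have t3 : (g * q * Real.log 3) * (k - κ) ≤
      (g * q * Real.log 3) * (k - m / (16 * (lam * m - k))) :=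
    mul_le_mul_of_nonneg_left (by linarith) (by positivity)
  have t4 : q * ((c * M - 2) * Real.log 2) ≤ q * ((k + 1) * (g * Real.log 3)) :=
    mul_le_mul_of_nonneg_left hk2 rq
  have t5 : (⌊c * L⌋₊ : ℝ) * Real.log 2 ≤ c * (M * q + M) * Real.log 2 :=
    mul_le_mul_of_nonneg_right (d1.trans (mul_le_mul_of_nonneg_left r3 hc0.le)) h2'.le
  have t6 : c * M * Real.log 2 ≤ M := by
    have : c * Real.log 2 ≤ 1 := by nlinarith
    nlinarith
  have t7 : (q : ℝ) * Real.log 2 ≤ q := by nlinarith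
  have t8 : g * q * (1 + κ) * Real.log 3 ≤ g * q * (1 + κ) * 2 :=
    mul_le_mul_of_nonneg_left h3 (by positivity)
  push_cast at hE' ⊢
  nlinarith

end Pool.Agent.P.MP_fc15d7_nt.HZ
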