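import Pool.Agent.P.MP_fc15d7_nt.HZ.Iface

/-! Step EQ. -/

set_option autoImplicit false
set_option linter.unusedSectionVars false

namespace Pool.Agent.P.MP_fc15d7_nt.HZ

open Finset Filter Topology

theorem p_EQ (hSPLIT : S_SPLIT) :
    S_EQ := by
  intro A _ L F
  induction L with
  | zero => simp
  | succ L ih =>
    have h := hSPLIT A L 1 (fun y => ∏ i ∈ range L, F i (dg i y)) (fun z => F L (z % 2))
      (fun x y => prod_congr rfl fun i hi => by
        rw [(per_dg i).mono (Nat.succ_le_of_lt (mem_range.1 hi)) x y])
      (fun x y => by simp)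
    simp only [prod_range_succ]
    rw [← ih]
    refine h.trans ?_
    simp [sum_range_succ]

end Pool.Agent.P.MP_fc15d7_nt.HZ
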