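import Pool.Agent.P.MP_fc15d7_nt.HZ.Iface

/-! Step GAPS. -/

set_option autoImplicit false
set_option linter.unusedSectionVars false

namespace Pool.Agent.P.MP_fc15d7_nt.HZ

open Finset Filter Topology

theorem gaps_aux {G : Type} [AddCommGroup G] [Fintype G] (a : ℕ → G) (g q m : ℕ) :
    ∃ A : GA G, Pm A ∧ pr 2 (m * (g + 1) * q) a =
      A * ∏ j ∈ range m, pr 2 (g * q) fun t => a ((j * (g + 1) + 1) * q + t) := by
  induction m with
  | zero => exact ⟨1, Pm.one, by simp [pr_zero]⟩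
  | succ m ih =>
    obtain ⟨A, hA, e⟩ := ih
    refine ⟨A * pr 2 q fun t => a (m * (g + 1) * q + t), hA.mul (Pm.pr (by norm_num) _ _), ?_⟩
    have h1 : (m + 1) * (g + 1) * q = m * (g + 1) * q + q + g * q := by ring
    have h2 : m * (g + 1) * q + q = (m * (g + 1) + 1) * q := by ring
    rw [h1, pr_add, pr_add, e, prod_range_succ, h2]
    ring

theorem p_GAPS :
    S_GAPS := by
  intro G _ _ a m g q L hL
  obtain ⟨r, rfl⟩ := Nat.exists_eq_add_of_le hL
  obtain ⟨A, hA, e⟩ := gaps_aux a g q m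
  refine ⟨A * pr 2 r fun t => a (m * (g + 1) * q + t), hA.mul (Pm.pr (by norm_num) _ _), ?_⟩
  rw [pr_add, e, Fin.prod_univ_eq_prod_range
    (fun j => pr 2 (g * q) fun t => a ((j * (g + 1) + 1) * q + t)) m]
  ring

end Pool.Agent.P.MP_fc15d7_nt.HZ
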