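import Pool.Agent.P.MP_fc15d7_nt.HZ.Iface

/-! Step IND. -/

set_option autoImplicit false
set_option linter.unusedSectionVars false

namespace Pool.Agent.P.MP_fc15d7_nt.HZ

open Finset Filter Topology

theorem p_IND (hSPLIT : S_SPLIT) :
    S_IND := by
  intro h M φ I hφ
  induction I using Finset.induction_on_max generalizing M with
  | empty => intro _ _; simp
  | insert i I hi ih =>
    intro h1 h2
    have hiI : i ∉ I := fun hm => lt_irrefl _ (hi i hm)
    have h3 : ∀ j ∈ I, j + h ≤ i := fun j hj =>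
      h1 j (mem_insert_of_mem hj) i (mem_insert_self _ _) (hi j hj)
    obtain ⟨b, rfl⟩ := Nat.exists_eq_add_of_le (h2 i (mem_insert_self _ _))
    have p1 : Per i fun z => ∏ j ∈ I, φ (f^[j] z) := fun x y =>
      prod_congr rfl fun j hj => ((hφ.iter j).mono (h3 j hj)) x y
    have e1 := hSPLIT ℝ i (h + b) _ φ p1 (hφ.mono (Nat.le_add_right _ _))
    have e2 := hSPLIT ℝ h b φ (fun _ => 1) hφ fun _ _ => rfl
    simp only [mul_one, sum_const, card_range, nsmul_eq_mul, Nat.cast_pow, Nat.cast_ofNat] at e2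
    rw [ih i (fun a ha c hc => h1 a (mem_insert_of_mem ha) c (mem_insert_of_mem hc)) h3, e2] at e1
    simp only [prod_insert hiI, card_insert_of_notMem hiI]
    rw [add_assoc, ← sum_congr rfl fun z _ => mul_comm _ _, e1, pow_succ, pow_add, pow_add]
    field_simp

end Pool.Agent.P.MP_fc15d7_nt.HZ
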