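import Pool.Agent.P.MP_fc15d7_nt.HZ.Iface

/-! Step INV. -/

set_option autoImplicit false
set_option linter.unusedSectionVars false

namespace Pool.Agent.P.MP_fc15d7_nt.HZ

open Finset Filter Topology

namespace INVb

variable {G : Type} [AddCommGroup G] [Fintype G]

theorem tel (R : ℕ) (b : G) : e b * ap R b - ap R b = (R : ℝ)⁻¹ • (e (R • b) - 1) := by
  have h := sum_range_sub (fun j => e (j • b)) R
  rw [zero_smul, e_zero] at h
  rw [ap, mul_smul_comm, ← smul_sub, mul_sum, ← sum_sub_distrib, ← h]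
  congr 1
  exact sum_congr rfl fun j _ => by rw [succ_nsmul', e_add]

end INVb

theorem p_INV :
    S_INV := by
  intro G _ _ a Q t hQ ha
  have q0 : (0 : ℝ) < Q := by exact_mod_cast hQ
  have key : n1 (e (3 • a t) * (pr 3 t a * ap Q (3 • a 0)) - pr 3 t a * ap Q (3 • a 0)) ≤
      (2 / 3) ^ t * (2 / Q) ∧ n1 (pr 2 t a * (pr 3 t a * ap Q (3 • a 0)) -
      pr 3 t a * ap Q (3 • a 0)) ≤ (1 - (2 / 3) ^ t) / Q := by
    induction t with
    | zero =>
      have h := n1_add_le (e (Q • 3 • a 0)) (-1)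
      rw [n1_neg, (Pm.e _).n1, Pm.one.n1, ← sub_eq_add_neg] at h
      simp only [pr_zero, one_mul, pow_zero, sub_self, zero_div]
      refine ⟨?_, by simp [n1]⟩
      rw [INVb.tel, n1_smul, abs_of_pos (inv_pos.2 q0), div_eq_inv_mul]
      exact mul_le_mul_of_nonneg_left (by linarith) (inv_pos.2 q0).le
    | succ t ih =>
      rw [pr_succ 3, pr_succ 2, mul_assoc (ap 3 (a t)), ha]
      generalize pr 3 t a * ap Q (3 • a 0) = S at ih ⊢
      have h1 : n1 (e (a t) * (ap 3 (a t) * S) - ap 3 (a t) * S) ≤ (2 / 3) ^ t * (2 / Q) / 3 := by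
        rw [← mul_assoc, ← sub_mul, INVb.tel, smul_mul_assoc, n1_smul, sub_mul, one_mul,
          abs_of_pos (by norm_num)]
        push_cast
        linarith [ih.1]
      constructor
      · rw [show e (2 • a t) * (ap 3 (a t) * S) - ap 3 (a t) * S =
          e (a t) * (e (a t) * (ap 3 (a t) * S) - ap 3 (a t) * S) +
            (e (a t) * (ap 3 (a t) * S) - ap 3 (a t) * S) by rw [two_nsmul, e_add]; ring]
        refine (n1_add_le _ _).trans ?_
        rw [n1_e_mul, pow_succ]
        linarith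
      · have e2 : (2 : ℝ)⁻¹ • (e (a t) - 1) = ap 2 (a t) - 1 := by
          rw [ap_two]
          module
        rw [show ap 2 (a t) * pr 2 t a * (ap 3 (a t) * S) - ap 3 (a t) * S =
          ap 2 (a t) * ap 3 (a t) * (pr 2 t a * S - S) +
            (2 : ℝ)⁻¹ • (e (a t) * (ap 3 (a t) * S) - ap 3 (a t) * S) by
          rw [← sub_one_mul (e (a t)), ← smul_mul_assoc, e2]
          ring]
        refine (n1_add_le _ _).trans ?_
        have h2 := n1_mul_le ((Pm.ap (R := 2) (by norm_num) (a t)).mul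
          (Pm.ap (R := 3) (by norm_num) (a t))) (pr 2 t a * S - S)
        rw [n1_smul, abs_of_pos (by norm_num), pow_succ]
        have e3 : (1 - (2 / 3 : ℝ) ^ t * (2 / 3)) / Q =
            (1 - (2 / 3) ^ t) / Q + 2⁻¹ * ((2 / 3) ^ t * (2 / Q) / 3) := by ring
        linarith [ih.2]
  have p0 : (0 : ℝ) ≤ (2 / 3) ^ t := by positivity
  have p1 : (2 / 3 : ℝ) ^ t ≤ 1 := pow_le_one₀ (by norm_num) (by norm_num)
  exact ⟨key.1.trans (mul_le_of_le_one_left (by positivity) p1),
    key.2.trans (div_le_div_of_nonneg_right (by linarith) q0.le)⟩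

end Pool.Agent.P.MP_fc15d7_nt.HZ
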