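import Pool.Agent.P.MP_fc15d7_nt.HZ.Iface

/-! Step LAW. -/

set_option autoImplicit false
set_option linter.unusedSectionVars false

namespace Pool.Agent.P.MP_fc15d7_nt.HZ

open Finset Filter Topology

theorem law_sum (L N y : ℕ) : ∑ i ∈ range L, dg i y • al N i =
    (y : ZMod (2 ^ N)) - 2 ^ L * (3 : ZMod (2 ^ N))⁻¹ ^ L * ((f^[L] y : ℕ) : ZMod (2 ^ N)) := by
  induction L with
  | zero => simp
  | succ L ih =>
    have h := congrArg (Nat.cast : ℕ → ZMod (2 ^ N)) (two_mul_iter L y)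
    push_cast at h
    rw [sum_range_succ, ih, nsmul_eq_mul, al]
    linear_combination (2 ^ L * (3 : ZMod (2 ^ N))⁻¹ ^ (L + 1)) * h +
      (2 ^ L * (3 : ZMod (2 ^ N))⁻¹ ^ L * ((f^[L] y : ℕ) : ZMod (2 ^ N))) * three_mul_inv N

theorem p_LAW (hEQ : S_EQ) :
    S_LAW := by
  intro L N
  have h := hEQ (GA (ZMod (2 ^ N))) L fun i d => e (d • al N i)
  simp only [← e_sum, law_sum] at h
  rw [h, pr]
  simp only [ap_two, zero_smul, one_smul, e_zero]
  rw [Finset.prod_smul, prod_const, card_range, inv_pow]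

end Pool.Agent.P.MP_fc15d7_nt.HZ
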