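import Pool.Agent.P.MP_fc15d7_nt.HZ.Iface

/-! Step LD. -/

set_option autoImplicit false
set_option linter.unusedSectionVars false

namespace Pool.Agent.P.MP_fc15d7_nt.HZ

open Finset Filter Topology

theorem p_LD (hIND : S_IND) :
    S_LD := by
  intro h M k ξ s θ B hh hper hξ hmean hs0 hs1 hk hB
  have hh' : (0 : ℝ) < h := by exact_mod_cast hh
  set I : ℕ → Finset ℕ := fun r => (range k).filter fun i => i % h = r with hI
  set S : ℕ → ℕ → ℝ := fun r z => ∑ i ∈ I r, ξ (f^[i] z) with hS
  have htot : ∀ z, ∑ r ∈ range h, S r z = ∑ i ∈ range k, ξ (f^[i] z) := fun z =>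
    sum_fiberwise_of_maps_to (fun i _ => mem_range.2 (Nat.mod_lt _ hh)) _
  have hone : ∀ z ∈ B, 1 ≤ ∑ r ∈ range h, Real.exp (s * S r z - s * θ / h) := by
    intro z hz
    obtain ⟨r, hr, h1⟩ : ∃ r ∈ range h, θ / h ≤ S r z := by
      refine exists_le_of_sum_le ⟨0, mem_range.2 hh⟩ ?_
      rw [htot, sum_const, card_range, nsmul_eq_mul, mul_div_cancel₀ _ hh'.ne']
      exact (hB z hz).2
    refine le_trans ?_ (single_le_sum (f := fun r => Real.exp (s * S r z - s * θ / h))
      (fun _ _ => (Real.exp_pos _).le) hr)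
    refine Real.one_le_exp ?_
    rw [mul_div_assoc, ← mul_sub]
    exact mul_nonneg hs0 (by linarith)
  have hm : (∑ z ∈ range (2 ^ h), Real.exp (s * ξ z)) / 2 ^ h ≤ Real.exp (s ^ 2) := by
    rw [div_le_iff₀ (by positivity)]
    have h1 : ∀ z ∈ range (2 ^ h), Real.exp (s * ξ z) ≤ Real.exp (s ^ 2) + s * ξ z := by
      intro z _
      have h2 : |s * ξ z| ≤ s := by
        rw [abs_mul, abs_of_nonneg hs0]
        exact mul_le_of_le_one_right hs0 (hξ z)
      have h3 := (le_abs_self _).trans (Real.abs_exp_sub_one_sub_id_le (h2.trans hs1))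
      have h4 : (s * ξ z) ^ 2 ≤ s ^ 2 := by
        rw [← sq_abs]
        exact pow_le_pow_left₀ (abs_nonneg _) h2 2
      linarith [Real.add_one_le_exp (s ^ 2)]
    refine (sum_le_sum h1).trans (le_of_eq ?_)
    rw [sum_add_distrib, ← mul_sum, hmean, sum_const, card_range, nsmul_eq_mul]
    push_cast
    ring
  have hr : ∀ r ∈ range h, ∑ z ∈ range (2 ^ M), Real.exp (s * S r z - s * θ / h) ≤
      2 ^ M * Real.exp (s ^ 2 * M - s * θ / h) := by
    intro r _
    have h1 := hIND h M (fun z => Real.exp (s * ξ z)) (I r) (fun x y => by simp only [hper x y])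
      (fun i hi j hj hij => by
        have h2 := (mem_filter.1 hi).2
        have h3 := (mem_filter.1 hj).2
        have h4 : h ∣ j - i := (Nat.modEq_iff_dvd' hij.le).1 (h2.trans h3.symm)
        have := Nat.le_of_dvd (by omega) h4
        omega)
      (fun i hi => by
        have := mem_range.1 (mem_filter.1 hi).1
        omega)
    have h2 : ∀ z, Real.exp (s * S r z - s * θ / h) =
        (∏ i ∈ I r, Real.exp (s * ξ (f^[i] z))) * Real.exp (-(s * θ / h)) := fun z => by
      rw [← Real.exp_sum, ← mul_sum, ← Real.exp_add, sub_eq_add_neg]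
    have h3 : (I r).card ≤ M := by
      have := (card_filter_le (range k) fun i => i % h = r).trans_eq (card_range k)
      simp only [hI]
      omega
    have h4 : ((∑ z ∈ range (2 ^ h), Real.exp (s * ξ z)) / 2 ^ h) ^ (I r).card ≤
        Real.exp (s ^ 2 * M) := by
      refine (pow_le_pow_left₀ (div_nonneg (sum_nonneg fun _ _ => (Real.exp_pos _).le)
        (by positivity)) hm _).trans ?_
      rw [← Real.exp_nat_mul, mul_comm]
      exact Real.exp_le_exp.2 (mul_le_mul_of_nonneg_left (Nat.cast_le.2 h3) (sq_nonneg s))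
    simp only [h2]
    rw [← sum_mul, h1, sub_eq_add_neg, Real.exp_add, mul_assoc]
    gcongr
  calc (B.card : ℝ) = ∑ _z ∈ B, (1 : ℝ) := by simp
    _ ≤ ∑ z ∈ B, ∑ r ∈ range h, Real.exp (s * S r z - s * θ / h) := sum_le_sum hone
    _ ≤ ∑ z ∈ range (2 ^ M), ∑ r ∈ range h, Real.exp (s * S r z - s * θ / h) :=
        sum_le_sum_of_subset_of_nonneg (fun z hz => mem_range.2 (hB z hz).1)
          fun _ _ _ => sum_nonneg fun _ _ => (Real.exp_pos _).le
    _ ≤ ∑ _r ∈ range h, 2 ^ M * Real.exp (s ^ 2 * M - s * θ / h) := by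
        rw [sum_comm]
        exact sum_le_sum hr
    _ = _ := by rw [sum_const, card_range, nsmul_eq_mul, mul_assoc]

end Pool.Agent.P.MP_fc15d7_nt.HZ
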