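import Pool.Agent.P.MP_fc15d7_nt.HZ.Iface
import Pool.Agent.P.MP_fc15d7_nt.Subspace

/-! Any few separated cells of digits are an information set. -/

set_option autoImplicit false

open Matrix Filter Real Finset

namespace Pool.Agent.P.MP_fc15d7_nt.HZ

theorem det_row {D : ℕ} (j0 : Fin D) :
    ((1 : Matrix (Fin D) (Fin D) ℤ).updateRow j0 fun _ => 1).det = 1 := by
  have h := Matrix.det_updateRow_sum (1 : Matrix (Fin D) (Fin D) ℤ) j0 (fun _ => (1 : ℤ))
  have e : (∑ k, (1 : ℤ) • (1 : Matrix (Fin D) (Fin D) ℤ) k) = fun _ => 1 := by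
    funext i
    simp [Finset.sum_apply, Matrix.one_apply]
  rw [e] at h
  simpa using h

theorem row_mul {D : ℕ} (j0 i : Fin D) (x : Fin D → ℤ) :
    (((1 : Matrix (Fin D) (Fin D) ℤ).updateRow j0 fun _ => 1) *ᵥ x) i =
      if i = j0 then ∑ j, x j else x i := by
  by_cases h : i = j0
  · subst h
    simp [mulVec, dotProduct]
  · have : ((1 : Matrix (Fin D) (Fin D) ℤ).updateRow j0 fun _ => 1) i =
        (1 : Matrix (Fin D) (Fin D) ℤ) i := Matrix.updateRow_ne h
    rw [if_neg h]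
    change ((1 : Matrix (Fin D) (Fin D) ℤ).updateRow j0 fun _ => 1) i ⬝ᵥ x = _
    rw [this]
    exact congrFun (one_mulVec x) i

theorem mds_core (hST : S_ST) {D : ℕ} (α β r : Fin D → ℕ) (γ : Fin D → ℝ) (j0 : Fin D) {ν : ℝ}
    (hν : 0 ≤ ν) (hsum : ∑ i, γ i + α j0 * log 2 < ν * log 2) (hr : Function.Injective r)
    (hsep : ∀ i j, r i < r j → γ j + β j * log 3 < β i * log 3)
    (U : Ultrafilter ℕ) (hU : (U : Filter ℕ) ≤ atTop) (y : ℕ → Fin D → ℤ) (N : ℕ → ℕ)
    (h : ∀ᶠ q in U, (∀ i, y q i ≠ 0 ∧ |(y q i : ℝ)| ≤ exp (γ i * q)) ∧ ν * q ≤ N q ∧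
      (2 : ℤ) ^ N q ∣ ∑ i, 2 ^ (α i * q) * 3 ^ (β i * q) * y q i) : False := by
  have l2 : 0 < log 2 := log_pos (by norm_num)
  have l3 : 0 < log 3 := log_pos (by norm_num)
  have hN : Tendsto (fun n : ℕ => (n : ℝ)) U atTop := tendsto_natCast_atTop_atTop.mono_left hU
  have e2 : ∀ a q : ℕ, (2 : ℝ) ^ (a * q) = exp (a * log 2 * q) := fun a q => by
    rw [show (a : ℝ) * log 2 * q = (a * q : ℕ) * log 2 by push_cast; ring, exp_nat_mul,
      exp_log two_pos]
  have e3 : ∀ a q : ℕ, (3 : ℝ) ^ (a * q) = exp (a * log 3 * q) := fun a q => by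
    rw [show (a : ℝ) * log 3 * q = (a * q : ℕ) * log 3 by push_cast; ring, exp_nat_mul,
      exp_log three_pos]
  obtain ⟨l, hl0, hl1⟩ := hST D (Fin 2) ![2, 3] 1
    ![(1 : Matrix (Fin D) (Fin D) ℤ).updateRow j0 fun _ => 1, 1]
    (fun i => α i * log 2 + β i * log 3 + γ i)
    ![fun i => if i = j0 then ν * log 2 else α i * log 2, fun i => β i * log 3]
    U (fun n => n) (fun q i => 2 ^ (α i * q) * 3 ^ (β i * q) * y q i)
    ⟨by simp [Fin.forall_fin_two], by simp [Pairwise, Fin.forall_fin_two]; norm_num, by simp,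
      by simp [Fin.forall_fin_two, det_row]⟩
    (by
      simp only [Fin.forall_fin_two, cons_val_zero, cons_val_one]
      refine ⟨fun i => ?_, fun i => by positivity⟩
      split_ifs <;> positivity)
    (by
      simp only [Fin.sum_univ_two, cons_val_zero, cons_val_one, Finset.sum_add_distrib]
      have h1 : ∑ i, (if i = j0 then ν * log 2 else α i * log 2) =
          ∑ i, (α i * log 2 + if i = j0 then ν * log 2 - α j0 * log 2 else 0) :=
        Finset.sum_congr rfl fun i _ => by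
          split_ifs with h
          · subst h; ring
          · ring
      rw [h1, Finset.sum_add_distrib]
      simp only [Finset.sum_ite_eq', Finset.mem_univ, if_true]
      linarith) hN
    (by
      filter_upwards [h] with q ⟨h1, h2, h3⟩
      refine ⟨fun i => ?_, Fin.forall_fin_two.2 ⟨fun i => ?_, fun i => ?_⟩⟩
      · rw [one_mulVec]
        push_cast
        rw [abs_mul, abs_mul, abs_of_pos (by positivity : (0 : ℝ) < 2 ^ (α i * q)),
          abs_of_pos (by positivity : (0 : ℝ) < 3 ^ (β i * q)), e2, e3, add_mul, add_mul, exp_add,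
          exp_add]
        exact mul_le_mul_of_nonneg_left (h1 i).2 (by positivity)
      · simp only [cons_val_zero]
        rw [row_mul]
        split_ifs with hi
        · refine (pow_dvd_pow _ ?_).trans h3
          rw [ex_le_iff le_rfl]
          push_cast
          nlinarith
        · refine ((pow_dvd_pow _ ?_).mul_right _).mul_right _
          rw [ex_le_iff le_rfl]
          push_cast
          exact le_of_eq (by ring)
      · simp only [cons_val_one, cons_val_zero, one_mulVec]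
        refine ((pow_dvd_pow _ ?_).mul_left _).mul_right _
        rw [ex_le_iff (by norm_num)]
        push_cast
        exact le_of_eq (by ring))
  -- the last index of the support
  obtain ⟨j, hj, hmax⟩ := Finset.exists_max_image (univ.filter fun i => l i ≠ 0) r (by
    by_contra hc
    refine hl0 (funext fun i => ?_)
    by_contra hi
    exact hc ⟨i, by simpa using hi⟩)
  have hj : l j ≠ 0 := by simpa using hj
  have hlt : ∀ i, l i ≠ 0 → i ≠ j → γ j + β j * log 3 < β i * log 3 := fun i hi hij =>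
    hsep i j (lt_of_le_of_ne (hmax i (by simpa using hi)) fun e => hij (hr e))
  by_cases hS : (univ.filter fun i => l i ≠ 0 ∧ i ≠ j).Nonempty
  · obtain ⟨i0, hi0, hmin⟩ := Finset.exists_min_image _ β hS
    simp only [Finset.mem_filter, Finset.mem_univ, true_and] at hi0 hmin
    have hδ := hlt i0 hi0.1 hi0.2
    have hev : ∀ᶠ q : ℕ in U, |(l j : ℝ)| < exp ((β i0 * log 3 - (γ j + β j * log 3)) * q) :=
      (tendsto_exp_atTop.comp (hN.const_mul_atTop (by linarith))).eventually_gt_atTop _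
    obtain ⟨q, h0, ⟨h1, -, -⟩, h2⟩ := (hl1.and (h.and hev)).exists
    have hd : (3 : ℤ) ^ (β i0 * q) ∣ l j * (2 ^ (α j * q) * 3 ^ (β j * q) * y q j) := by
      rw [← Finset.add_sum_erase _ _ (Finset.mem_univ j)] at h0
      rw [eq_neg_of_add_eq_zero_left h0, dvd_neg]
      refine Finset.dvd_sum fun i hi => ?_
      by_cases hli : l i = 0
      · simp [hli]
      · exact (((pow_dvd_pow _ (Nat.mul_le_mul_right _
          (hmin i ⟨hli, Finset.ne_of_mem_erase hi⟩))).mul_left _).mul_right _).mul_left _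
    have hc : IsCoprime ((3 : ℤ) ^ (β i0 * q)) (2 ^ (α j * q)) :=
      IsCoprime.pow (by norm_num [Int.isCoprime_iff_gcd_eq_one])
    have hd2 : (3 : ℤ) ^ (β i0 * q) ∣ l j * 3 ^ (β j * q) * y q j := by
      refine hc.dvd_of_dvd_mul_left ?_
      rwa [show 2 ^ (α j * q) * (l j * 3 ^ (β j * q) * y q j) =
        l j * (2 ^ (α j * q) * 3 ^ (β j * q) * y q j) by ring]
    have hne : l j * 3 ^ (β j * q) * y q j ≠ 0 :=
      mul_ne_zero (mul_ne_zero hj (by positivity)) (h1 j).1
    have h4 := Int.le_of_dvd (abs_pos.2 hne) ((dvd_abs _ _).2 hd2)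
    have h5 : (3 : ℝ) ^ (β i0 * q) ≤ |(l j : ℝ)| * 3 ^ (β j * q) * |(y q j : ℝ)| := by
      have := (Int.cast_le (R := ℝ)).2 h4
      push_cast at this
      rwa [abs_mul, abs_mul, abs_of_pos (by positivity : (0 : ℝ) < 3 ^ (β j * q))] at this
    rw [e3, e3] at h5
    have h6 : |(l j : ℝ)| * exp (β j * log 3 * q) * |(y q j : ℝ)| ≤
        |(l j : ℝ)| * (exp (β j * log 3 * q) * exp (γ j * q)) := by
      rw [← mul_assoc]
      exact mul_le_mul_of_nonneg_left (h1 j).2 (by positivity)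
    have h7 := mul_lt_mul_of_pos_right h2
      (by positivity : 0 < exp (β j * log 3 * q) * exp (γ j * q))
    rw [← exp_add, ← exp_add] at h7
    rw [← exp_add] at h6
    have h8 : (β i0 * log 3 - (γ j + β j * log 3)) * q + (β j * log 3 * q + γ j * q) =
        β i0 * log 3 * q := by ring
    rw [h8] at h7
    linarith
  · obtain ⟨q, h0, h1, -, -⟩ := (hl1.and h).exists
    rw [Finset.sum_eq_single j (fun i _ hi => by
      have : l i = 0 := by
        by_contra hc
        exact hS ⟨i, by simp [hc, hi]⟩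
      simp [this]) (by simp)] at h0
    exact mul_ne_zero hj (mul_ne_zero (by positivity) (h1 j).1) h0

/-- Cell `j` is the interval `[(j (g+1) + 1) q, (j+1) (g+1) q)` of digits. -/
theorem hz_mds (hST : S_ST) (m g k : ℕ) (l ν : ℝ) (hm : ((m * (g + 1) : ℕ) : ℝ) ≤ l)
    (h : l * log 2 + k * g * log 3 < ν * log 2) :
    ∃ q0 : ℕ, ∀ q ≥ q0, ∀ (N : ℕ) (t : ℤ) (c : Fin m → ℤ), ν * q ≤ N →
      |(t : ℝ)| ≤ 2 ^ (l * q) → (∀ j, |c j| ≤ 2 * 3 ^ (g * q)) →
      (univ.filter fun j => c j ≠ 0).card ≤ k →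
      (2 : ℤ) ^ N ∣ 3 ^ (m * (g + 1) * q) * t +
        ∑ j : Fin m, 2 ^ ((j * (g + 1) + 1) * q) * 3 ^ ((m - 1 - j) * (g + 1) * q) * c j →
      t = 0 ∧ ∀ j, c j = 0 := by
  classical
  have l2 : 0 < log 2 := log_pos (by norm_num)
  have l3 : 0 < log 3 := log_pos (by norm_num)
  have hl : 0 ≤ l := le_trans (Nat.cast_nonneg _) hm
  have hν : 0 ≤ ν := by
    have : 0 ≤ l * log 2 + k * g * log 3 := by positivity
    by_contra hc
    nlinarith
  obtain ⟨η, hη, hη3, hηk⟩ : ∃ η : ℝ, 0 < η ∧ η < log 3 ∧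
      l * log 2 + k * (g * log 3 + η) < ν * log 2 := by
    set s := ν * log 2 - (l * log 2 + k * g * log 3) with hs
    have hs0 : 0 < s := by linarith
    refine ⟨min (log 3 / 2) (s / (k + 1)), lt_min (by positivity) (by positivity),
      (min_le_left _ _).trans_lt (by linarith), ?_⟩
    have h1 : (k : ℝ) * min (log 3 / 2) (s / (k + 1)) ≤ k * (s / (k + 1)) :=
      mul_le_mul_of_nonneg_left (min_le_right _ _) (Nat.cast_nonneg _)
    have h2 : (k : ℝ) * (s / (k + 1)) < s := by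
      rw [mul_div_assoc', div_lt_iff₀ (by positivity)]
      nlinarith
    nlinarith
  by_contra hc
  set P : ℕ → ℕ → ℤ → (Fin m → ℤ) → Prop := fun q N t c => ν * q ≤ N ∧
      |(t : ℝ)| ≤ 2 ^ (l * q) ∧ (∀ j, |c j| ≤ 2 * 3 ^ (g * q)) ∧
      (univ.filter fun j => c j ≠ 0).card ≤ k ∧
      (2 : ℤ) ^ N ∣ 3 ^ (m * (g + 1) * q) * t +
        ∑ j : Fin m, 2 ^ ((j * (g + 1) + 1) * q) * 3 ^ ((m - 1 - j) * (g + 1) * q) * c j ∧
      ¬ (t = 0 ∧ ∀ j, c j = 0) with hP
  have hf : ∃ᶠ q in atTop, ∃ N t c, P q N t c := by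
    rw [frequently_atTop]
    intro q0
    by_contra h1
    refine hc ⟨q0, fun q hq N t c a1 a2 a3 a4 a5 => ?_⟩
    by_contra a6
    exact h1 ⟨q, hq, N, t, c, a1, a2, a3, a4, a5, a6⟩
  obtain ⟨U, hU⟩ := @Ultrafilter.exists_le _ _ (frequently_iff_neBot.1 hf)
  have hU1 : (U : Filter ℕ) ≤ atTop := hU.trans inf_le_left
  have hU2 : ∀ᶠ q in U, ∃ N t c, P q N t c := le_principal_iff.1 (hU.trans inf_le_right)
  have hch : ∀ q, ∃ N t c, (∃ N t c, P q N t c) → P q N t c := fun q => by
    by_cases h1 : ∃ N t c, P q N t c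
    · obtain ⟨N, t, c, h2⟩ := h1
      exact ⟨N, t, c, fun _ => h2⟩
    · exact ⟨0, 0, 0, fun h2 => absurd h2 h1⟩
  choose N t c hNc using hch
  have hU3 : ∀ᶠ q in U, P q (N q) (t q) (c q) := hU2.mono hNc
  let Y : ℕ → Fin (m + 1) → ℤ := fun q => Fin.cons (t q) (c q)
  let α : Fin (m + 1) → ℕ := Fin.cons 0 fun j : Fin m => j * (g + 1) + 1
  let β : Fin (m + 1) → ℕ := Fin.cons (m * (g + 1)) fun j : Fin m => (m - 1 - j) * (g + 1)
  let γ : Fin (m + 1) → ℝ := Fin.cons (l * log 2) fun _ => g * log 3 + η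
  obtain ⟨J, hJ⟩ : ∃ J : Finset (Fin (m + 1)), ∀ᶠ q in U, ∀ i, i ∈ J ↔ Y q i ≠ 0 :=
    Ultrafilter.eventually_exists_iff.1
      (Eventually.of_forall fun q => ⟨univ.filter fun i => Y q i ≠ 0, by simp⟩)
  obtain ⟨q1, ⟨-, -, -, b4, -, b6⟩, b7⟩ := (hU3.and hJ).exists
  let e := J.orderEmbOfFin rfl
  have he : ∀ i, e i ∈ J := fun i => J.orderEmbOfFin_mem rfl i
  have hsur : ∀ i ∈ J, ∃ j, e j = i := fun i hi => by
    have : i ∈ Set.range e := by rw [J.range_orderEmbOfFin]; exact hi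
    exact this
  have hsum : ∀ {R : Type} [AddCommMonoid R] (f : Fin (m + 1) → R), ∑ i, f (e i) = ∑ i ∈ J, f i :=
    fun f => Finset.sum_bij (fun i _ => e i) (fun i _ => he i) (fun i _ j _ h => e.injective h)
      (fun i hi => by
        obtain ⟨j, hj⟩ := hsur i hi
        exact ⟨j, Finset.mem_univ _, hj⟩) fun _ _ => rfl
  have hγ : ∑ i ∈ J, γ i ≤ (if 0 ∈ J then l * log 2 else 0) + k * (g * log 3 + η) := by
    rw [← Finset.univ_inter J, ← Finset.sum_ite_mem, Fin.sum_univ_succ, Finset.univ_inter]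
    refine add_le_add le_rfl ?_
    simp only [γ, Fin.cons_succ]
    rw [← Finset.sum_filter, Finset.sum_const, nsmul_eq_mul]
    refine mul_le_mul_of_nonneg_right (Nat.cast_le.2 (le_trans (le_of_eq ?_) b4)) (by positivity)
    congr 1
    ext j
    simp [b7, Y]
  obtain ⟨j0, hj0⟩ : ∃ j0, (if 0 ∈ J then l * log 2 else 0) + α (e j0) * log 2 ≤ l * log 2 := by
    by_cases h0 : 0 ∈ J
    · obtain ⟨j, hj⟩ := hsur 0 h0
      exact ⟨j, by simp [h0, hj, α]⟩
    · obtain ⟨j, hj⟩ : ∃ j, c q1 j ≠ 0 := by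
        by_contra h1
        refine b6 ⟨?_, by simpa using h1⟩
        simpa [b7, Y] using h0
      obtain ⟨i, hi⟩ := hsur j.succ (by simpa [b7, Y] using hj)
      refine ⟨i, ?_⟩
      rw [if_neg h0, zero_add, hi]
      refine mul_le_mul_of_nonneg_right (le_trans (Nat.cast_le.2 ?_) hm) l2.le
      simp only [α, Fin.cons_succ]
      have := j.2
      nlinarith
  refine mds_core hST (fun i => α (e i)) (fun i => β (e i)) (fun i => (e i : ℕ)) (fun i => γ (e i))
    j0 hν (by rw [hsum]; linarith) (fun i j h => e.injective (Fin.ext h)) (fun i j => ?_) U hU1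
    (fun q i => Y q (e i)) N ?_
  · generalize e i = i
    generalize e j = j
    intro hij
    obtain ⟨j, rfl⟩ := Fin.exists_succ_eq.2 (show j ≠ 0 from fun h => by simp [h] at hij)
    have hj := j.2
    have key : (m - 1 - j) * (g + 1) + (g + 1) ≤ β i := by
      rw [← add_one_mul]
      rcases Fin.eq_zero_or_eq_succ i with rfl | ⟨i, rfl⟩
      · exact Nat.mul_le_mul_right _ (by omega)
      · simp only [Fin.val_succ] at hij
        simp only [β, Fin.cons_succ]
        exact Nat.mul_le_mul_right _ (by omega)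
    have key' := (Nat.cast_le (α := ℝ)).2 key
    simp only [γ, β, Fin.cons_succ] at key' ⊢
    rw [Nat.cast_add, Nat.cast_add g, Nat.cast_one] at key'
    have := mul_le_mul_of_nonneg_right key' l3.le
    linarith
  · have hev : ∀ᶠ q : ℕ in U, 2 ≤ exp (η * q) :=
      (tendsto_exp_atTop.comp ((tendsto_natCast_atTop_atTop.mono_left hU1).const_mul_atTop
        hη)).eventually_ge_atTop _
    filter_upwards [hU3, hJ, hev] with q ⟨a1, a2, a3, _, a5, _⟩ a7 a8
    refine ⟨fun i => ⟨(a7 _).1 (he i), ?_⟩, a1, ?_⟩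
    · generalize e i = i
      rcases Fin.eq_zero_or_eq_succ i with rfl | ⟨i, rfl⟩
      · simp only [Y, γ, Fin.cons_zero]
        rwa [Real.rpow_def_of_pos two_pos, show log 2 * (l * q) = l * log 2 * q by ring] at a2
      · simp only [Y, γ, Fin.cons_succ]
        have a9 := (Int.cast_le (R := ℝ)).2 (a3 i)
        push_cast at a9
        rw [add_mul, exp_add, show (g : ℝ) * log 3 * q = (g * q : ℕ) * log 3 by push_cast; ring,
          exp_nat_mul, exp_log three_pos]
        nlinarith [pow_pos (three_pos : (0 : ℝ) < 3) (g * q)]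
    · rw [hsum fun i => 2 ^ (α i * q) * 3 ^ (β i * q) * Y q i,
        Finset.sum_subset (Finset.subset_univ J) (fun i _ hi => by
          rw [a7, not_not] at hi
          simp [hi]), Fin.sum_univ_succ]
      simpa [α, β, Y] using a5

theorem p_MDS :
    S_MDS := fun m g k l ν hm h => hz_mds subspace m g k l ν hm h

end Pool.Agent.P.MP_fc15d7_nt.HZ
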