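import Pool.Agent.P.MP_fc15d7_nt.HZ.Iface

/-! Step MEAN. -/

set_option autoImplicit false
set_option linter.unusedSectionVars false

namespace Pool.Agent.P.MP_fc15d7_nt.HZ

open Finset Filter Topology

theorem p_MEAN (hEQ : S_EQ) :
    S_MEAN := by
  classical
  intro h w
  let F : ℕ → ℕ → ℝ := fun i d =>
    if hi : i < h then (if (d = 1 ↔ w ⟨i, hi⟩ = true) then 1 else 0) else 0
  have h1 : ∏ i ∈ range h, (F i 0 + F i 1) = 1 := prod_eq_one fun i hi => by
    simp only [F, dif_pos (mem_range.1 hi)]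
    cases w ⟨i, mem_range.1 hi⟩ <;> simp
  have h2 : ∀ z, ∏ i ∈ range h, F i (dg i z) = if ind w z then 1 else 0 := fun z => by
    rw [prod_range]
    have : ∀ j : Fin h, F j (dg j z) = if (Odd (f^[j] z) ↔ w j = true) then 1 else 0 :=
      fun j => by simp only [F, dif_pos j.2, dg, Nat.odd_iff]
    simp only [this]
    by_cases hz : ind w z
    · rw [if_pos hz]
      exact prod_eq_one fun j _ => if_pos (hz j)
    · rw [if_neg hz]
      obtain ⟨j, hj⟩ := not_forall.1 hz
      exact prod_eq_zero (mem_univ j) (if_neg hj)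
  have h3 := hEQ ℝ h F
  simp only [h2, h1] at h3
  simp only [xi]
  rw [sum_sub_distrib, sum_const, card_range, nsmul_eq_mul]
  convert sub_eq_zero.2 h3 using 2
  push_cast
  field_simp

end Pool.Agent.P.MP_fc15d7_nt.HZ
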