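import Pool.Agent.P.MP_fc15d7_nt.HZ.Iface

/-! The sharp strong data processing inequality on three points. -/

set_option autoImplicit false

open Real Set

namespace Pool.Agent.P.MP_fc15d7_nt.HZ

namespace Sdpi

/-- the separable form of the inequality -/
noncomputable def ph (m x : ℝ) : ℝ := negMulLog (1 - x) / 2 - m * negMulLog x
/-- its derivative -/
noncomputable def ph1 (m x : ℝ) : ℝ := (log (1 - x) + 1) / 2 + m * (log x + 1)

theorem cont (m : ℝ) : Continuous (ph m) := by
  unfold ph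
  fun_prop

theorem d1 (m : ℝ) {x : ℝ} (h0 : 0 < x) (h1 : x < 1) : HasDerivAt (ph m) (ph1 m x) x := by
  have a := (hasDerivAt_negMulLog (x := 1 - x) (by linarith)).comp x
    ((hasDerivAt_id x).const_sub 1)
  have b := (a.div_const 2).sub ((hasDerivAt_negMulLog h0.ne').const_mul m)
  refine b.congr_deriv ?_
  unfold ph1
  ring

theorem d2 (m : ℝ) {x : ℝ} (h0 : 0 < x) (h1 : x < 1) :
    HasDerivAt (ph1 m) (m / x - 1 / (2 * (1 - x))) x := by
  have a := (hasDerivAt_log (x := 1 - x) (by linarith)).comp x ((hasDerivAt_id x).const_sub 1)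
  have b := ((a.add_const 1).div_const 2).add (((hasDerivAt_log h0.ne').add_const 1).const_mul m)
  refine b.congr_deriv ?_
  have : 1 - x ≠ 0 := by linarith
  field_simp
  ring

theorem stepA {m s b : ℝ} (hm : 1 / 3 ≤ m) (hs : s ≤ 2 / 3) (hb : 0 ≤ b) (hbs : b ≤ s) :
    2 * ph m (s / 2) ≤ ph m b + ph m (s - b) := by
  have hc : ConvexOn ℝ (Icc 0 s) fun x => ph m x + ph m (s - x) := by
    refine convexOn_of_hasDerivWithinAt2_nonneg (f' := fun x => ph1 m x - ph1 m (s - x))
      (f'' := fun x => (m / x - 1 / (2 * (1 - x))) + (m / (s - x) - 1 / (2 * (1 - (s - x)))))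
      (convex_Icc _ _) ?_ (fun x hx => ?_) (fun x hx => ?_) (fun x hx => ?_)
    · exact ((cont m).add ((cont m).comp (by fun_prop))).continuousOn
    all_goals rw [interior_Icc] at hx
    all_goals obtain ⟨h0, h1⟩ := hx
    · have a := (d1 m (x := s - x) (by linarith) (by linarith)).comp x
        ((hasDerivAt_id x).const_sub s)
      exact (((d1 m h0 (by linarith)).add a).congr_deriv (by ring)).hasDerivWithinAt
    · have a := (d2 m (x := s - x) (by linarith) (by linarith)).comp x
        ((hasDerivAt_id x).const_sub s)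
      exact (((d2 m h0 (by linarith)).sub a).congr_deriv (by ring)).hasDerivWithinAt
    · obtain ⟨y, rfl⟩ : ∃ y, s = x + y := ⟨s - x, by ring⟩
      have hy : 0 < y := by linarith
      have h2 : 0 < 1 - x := by linarith
      have h3 : 0 < 1 - y := by linarith
      rw [add_sub_cancel_left]
      have e : m / x - 1 / (2 * (1 - x)) + (m / y - 1 / (2 * (1 - y))) =
          (2 * m * (x + y) * ((1 - x) * (1 - y)) - (2 - (x + y)) * (x * y)) /
            (2 * x * y * (1 - x) * (1 - y)) := by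
        field_simp
        ring
      rw [e]
      refine div_nonneg ?_ (by positivity)
      have h4 : 2 * (1 / 3) * (x + y) * (1 - (x + y)) ≤ 2 * m * (x + y) * ((1 - x) * (1 - y)) := by
        have : 1 - (x + y) ≤ (1 - x) * (1 - y) := by nlinarith [mul_pos h0 hy]
        gcongr
        linarith
      have h5 : (2 - (x + y)) * (x * y) ≤ (2 - (x + y)) * ((x + y) ^ 2 / 4) :=
        mul_le_mul_of_nonneg_left (by nlinarith [sq_nonneg (x - y)]) (by linarith)
      have h6 : 0 ≤ (x + y) * ((2 - 3 * (x + y)) * (4 - (x + y))) :=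
        mul_nonneg (by linarith) (mul_nonneg (by linarith) (by linarith))
      nlinarith
  have h := hc.2 (show b ∈ Icc 0 s from ⟨hb, hbs⟩)
    (show s - b ∈ Icc 0 s from ⟨by linarith, by linarith⟩)
    (show (0 : ℝ) ≤ 1 / 2 by norm_num) (show (0 : ℝ) ≤ 1 / 2 by norm_num) (by norm_num)
  simp only [smul_eq_mul] at h
  rw [show 1 / 2 * b + 1 / 2 * (s - b) = s / 2 by ring, show s - s / 2 = s / 2 by ring,
    sub_sub_cancel] at h
  linarith

theorem stepB {m x : ℝ} (hm : 1 / 3 ≤ m) (hm2 : m ≤ 1 / 2) (h3 : ph m (1 / 3) = 0)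
    (hx : 1 / 3 ≤ x) (hx1 : x ≤ 1) : 0 ≤ ph m x + 2 * ph m ((1 - x) / 2) := by
  set f : ℝ → ℝ := fun x => ph m x + 2 * ph m ((1 - x) / 2) with hf
  set f1 : ℝ → ℝ := fun x => ph1 m x - ph1 m ((1 - x) / 2) with hf1
  have c0 : Continuous f := (cont m).add (continuous_const.mul ((cont m).comp (by fun_prop)))
  have e1 : ∀ x, 0 < x → x < 1 → HasDerivAt f (f1 x) x := fun x h0 h1 => by
    have a := (d1 m (x := (1 - x) / 2) (by linarith) (by linarith)).comp x
      (((hasDerivAt_id x).const_sub 1).div_const 2)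
    exact ((d1 m h0 h1).add (a.const_mul 2)).congr_deriv (by simp only [hf1]; ring)
  have e2 : ∀ x, 0 < x → x < 1 →
      HasDerivAt f1 ((m - (1 - m) * x) / (x * (1 - x) * (1 + x))) x := fun x h0 h1 => by
    have a := (d2 m (x := (1 - x) / 2) (by linarith) (by linarith)).comp x
      (((hasDerivAt_id x).const_sub 1).div_const 2)
    refine ((d2 m h0 h1).sub a).congr_deriv ?_
    have : 1 - x ≠ 0 := by linarith
    have : 1 + x ≠ 0 := by linarith
    rw [show 1 - (1 - x) / 2 = (1 + x) / 2 by ring]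
    field_simp
    ring
  have hl : 0 < 1 - m := by linarith
  set x0 := m / (1 - m) with hx0
  have hx0' : (1 - m) * x0 = m := by rw [hx0]; field_simp
  have a0 : 1 / 3 ≤ x0 := by rw [hx0, le_div_iff₀ hl]; linarith
  have a1 : x0 ≤ 1 := by rw [hx0, div_le_one hl]; linarith
  have f0 : f (1 / 3) = 0 := by
    simp only [hf]
    rw [show (1 - 1 / 3 : ℝ) / 2 = 1 / 3 by norm_num, h3]
    ring
  have g0 : f1 (1 / 3) = 0 := by
    simp only [hf1]
    rw [show (1 - 1 / 3 : ℝ) / 2 = 1 / 3 by norm_num, sub_self]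
  have p1 : ∀ y, 1 / 3 ≤ y → y < x0 → 0 ≤ f1 y := fun y hy hy0 => by
    have hmono : MonotoneOn f1 (Icc (1 / 3) y) := by
      refine monotoneOn_of_deriv_nonneg (convex_Icc _ _) (fun z hz =>
        (e2 z (by linarith [hz.1]) (by linarith [hz.2])).continuousAt.continuousWithinAt)
        (fun z hz => ?_) (fun z hz => ?_)
      all_goals rw [interior_Icc] at hz
      all_goals obtain ⟨h0, h1⟩ := hz
      · rw [interior_Icc]
        exact (e2 z (by linarith) (by linarith)).differentiableAt.differentiableWithinAt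
      · rw [(e2 z (by linarith) (by linarith)).deriv]
        have : 0 < 1 - z := by linarith
        refine div_nonneg (by nlinarith) ?_
        have : 0 < z := by linarith
        positivity
    exact g0 ▸ hmono ⟨le_rfl, hy⟩ ⟨hy, le_rfl⟩ hy
  have p0 : ∀ y, 1 / 3 ≤ y → y ≤ x0 → 0 ≤ f y := fun y hy hy0 => by
    have hmono : MonotoneOn f (Icc (1 / 3) y) := by
      refine monotoneOn_of_deriv_nonneg (convex_Icc _ _) c0.continuousOn
        (fun z hz => ?_) (fun z hz => ?_)
      all_goals rw [interior_Icc] at hz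
      all_goals obtain ⟨h0, h1⟩ := hz
      · rw [interior_Icc]
        exact (e1 z (by linarith) (by linarith)).differentiableAt.differentiableWithinAt
      · rw [(e1 z (by linarith) (by linarith)).deriv]
        exact p1 z h0.le (by linarith)
    exact f0 ▸ hmono ⟨le_rfl, hy⟩ ⟨hy, le_rfl⟩ hy
  rcases le_total x x0 with h | h
  · exact p0 x hx h
  have hc : ConcaveOn ℝ (Icc x0 1) f := by
    refine concaveOn_of_hasDerivWithinAt2_nonpos (f' := f1)
      (f'' := fun x => (m - (1 - m) * x) / (x * (1 - x) * (1 + x)))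
      (convex_Icc _ _) c0.continuousOn (fun x hx => ?_) (fun x hx => ?_) (fun x hx => ?_)
    all_goals rw [interior_Icc] at hx
    all_goals obtain ⟨h0, h1⟩ := hx
    · exact (e1 x (by linarith) h1).hasDerivWithinAt
    · exact (e2 x (by linarith) h1).hasDerivWithinAt
    · have : 0 < 1 - x := by linarith
      refine div_nonpos_of_nonpos_of_nonneg (by nlinarith) ?_
      have : 0 < x := by linarith
      positivity
  have f1' : f 1 = 0 := by simp [hf, ph]
  have := hc.min_le_of_mem_Icc ⟨le_rfl, a1⟩ ⟨a1, le_rfl⟩ ⟨h, hx1⟩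
  rw [f1', min_eq_right (p0 x0 a0 le_rfl)] at this
  exact this

theorem three {m a b c : ℝ} (hm : 1 / 3 ≤ m) (hm2 : m ≤ 1 / 2) (h3 : ph m (1 / 3) = 0)
    (ha : 0 ≤ a) (hb : 0 ≤ b) (hc : 0 ≤ c) (h : a + b + c = 1) :
    0 ≤ ph m a + ph m b + ph m c := by
  have key : ∀ a b c : ℝ, 1 / 3 ≤ a → 0 ≤ b → 0 ≤ c → a + b + c = 1 →
      0 ≤ ph m a + ph m b + ph m c := fun a b c ha hb hc h => by
    have h1 := stepA (s := 1 - a) (b := b) hm (by linarith) hb (by linarith)
    have h2 := stepB hm hm2 h3 ha (by linarith)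
    rw [show 1 - a - b = c by linarith] at h1
    linarith
  by_cases h1 : 1 / 3 ≤ a
  · exact key a b c h1 hb hc h
  by_cases h2 : 1 / 3 ≤ b
  · linarith [key b a c h2 ha hc (by linarith)]
  · linarith [key c a b (by linarith) ha hb (by linarith)]

end Sdpi

open Sdpi in
theorem hz_sdpi {a b c : ℝ} (ha : 0 ≤ a) (hb : 0 ≤ b) (hc : 0 ≤ c) :
    (1 - log 2 / log 3) * (negMulLog a + negMulLog b + negMulLog c) +
        3 * (log 2 / log 3) * negMulLog ((a + b + c) / 3) ≤
      negMulLog ((a + b) / 2) + negMulLog ((b + c) / 2) + negMulLog ((c + a) / 2) := by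
  have l2 : 0 < log 2 := log_pos (by norm_num)
  have l3 : 0 < log 3 := log_pos (by norm_num)
  have hl : log 2 / log 3 * log 3 = log 2 := by field_simp
  have u1 : 3 * log 2 ≤ 2 * log 3 := by
    have := log_le_log (by norm_num : (0 : ℝ) < 2 ^ 3) (by norm_num : (2 : ℝ) ^ 3 ≤ 3 ^ 2)
    simpa only [log_pow, Nat.cast_ofNat] using this
  have u2 : log 3 ≤ 2 * log 2 := by
    have := log_le_log (by norm_num : (0 : ℝ) < 3) (by norm_num : (3 : ℝ) ≤ 2 ^ 2)
    simpa only [log_pow, Nat.cast_ofNat] using this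
  have hm : 1 / 3 ≤ 1 - log 2 / log 3 := by
    have : log 2 / log 3 ≤ 2 / 3 := by rw [div_le_iff₀ l3]; linarith
    linarith
  have hm2 : 1 - log 2 / log 3 ≤ 1 / 2 := by
    have : 1 / 2 ≤ log 2 / log 3 := by rw [le_div_iff₀ l3]; linarith
    linarith
  have n3 : negMulLog (1 / 3 : ℝ) = log 3 / 3 := by
    rw [negMulLog, one_div, log_inv]; ring
  have n2 : negMulLog (1 / 2 : ℝ) = log 2 / 2 := by
    rw [negMulLog, one_div, log_inv]; ring
  have h3 : ph (1 - log 2 / log 3) (1 / 3) = 0 := by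
    rw [ph, n3, show (1 - 1 / 3 : ℝ) = 2 / 3 by norm_num, negMulLog,
      log_div (by norm_num) (by norm_num)]
    linear_combination (1 / 3) * hl
  rcases (add_nonneg (add_nonneg ha hb) hc).eq_or_lt with h0 | h0
  · obtain rfl : a = 0 := by linarith
    obtain rfl : b = 0 := by linarith
    obtain rfl : c = 0 := by linarith
    simp
  obtain ⟨s, hs⟩ : ∃ s, s = a + b + c := ⟨_, rfl⟩
  rw [← hs] at h0
  obtain ⟨x, rfl⟩ : ∃ x, a = s * x := ⟨a / s, by field_simp⟩
  obtain ⟨y, rfl⟩ : ∃ y, b = s * y := ⟨b / s, by field_simp⟩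
  obtain ⟨z, rfl⟩ : ∃ z, c = s * z := ⟨c / s, by field_simp⟩
  have hxyz : x + y + z = 1 := mul_left_cancel₀ h0.ne' (by linarith)
  have h := three hm hm2 h3 (nonneg_of_mul_nonneg_right ha h0) (nonneg_of_mul_nonneg_right hb h0)
    (nonneg_of_mul_nonneg_right hc h0) hxyz
  rw [← hs, show (s * x + s * y) / 2 = s * (1 / 2 * (1 - z)) by linear_combination s / 2 * hxyz,
    show (s * y + s * z) / 2 = s * (1 / 2 * (1 - x)) by linear_combination s / 2 * hxyz,
    show (s * z + s * x) / 2 = s * (1 / 2 * (1 - y)) by linear_combination s / 2 * hxyz,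
    show s / 3 = s * (1 / 3) by ring]
  simp only [negMulLog_mul, n2, n3]
  have h1 := mul_nonneg h0.le h
  unfold ph at h1
  obtain rfl : z = 1 - x - y := by linarith
  linear_combination h1 + s * hl

theorem p_SD :
    S_SD := fun _ _ _ ha hb hc => hz_sdpi ha hb hc

end Pool.Agent.P.MP_fc15d7_nt.HZ
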