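import Pool.Agent.P.MP_fc15d7_nt.HZ.Iface

/-! Step SPLIT. -/

set_option autoImplicit false
set_option linter.unusedSectionVars false

namespace Pool.Agent.P.MP_fc15d7_nt.HZ

open Finset Filter Topology

theorem split_sum {A : Type} [CommRing A] (m n : ℕ) (F : ℕ → A) :
    ∑ z ∈ range (m * n), F z = ∑ x ∈ range m, ∑ y ∈ range n, F (x + m * y) := by
  induction n with
  | zero => simp
  | succ n ih =>
    rw [Nat.mul_succ, sum_range_add, ih, ← sum_add_distrib]
    exact sum_congr rfl fun x _ => by rw [sum_range_succ, add_comm (m * n)]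

theorem split_perm {A : Type} [CommRing A] {b : ℕ} {Ψ : ℕ → A} (h : Per b Ψ) (c a : ℕ) :
    ∑ y ∈ range (2 ^ b), Ψ (c + 3 ^ a * y) = ∑ z ∈ range (2 ^ b), Ψ z := by
  have hp : 0 < 2 ^ b := by positivity
  have hco : Nat.Coprime (2 ^ b) (3 ^ a) := Nat.Coprime.pow _ _ (by norm_num)
  have hinj : Set.InjOn (fun y => (c + 3 ^ a * y) % 2 ^ b) (range (2 ^ b) : Finset ℕ) := by
    intro y hy y' hy' e
    have h1 : y ≡ y' [MOD 2 ^ b] :=
      Nat.ModEq.cancel_left_of_coprime hco (Nat.ModEq.add_left_cancel' c e)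
    exact Nat.ModEq.eq_of_lt_of_lt h1 (mem_range.1 hy) (mem_range.1 hy')
  have him : (range (2 ^ b)).image (fun y => (c + 3 ^ a * y) % 2 ^ b) = range (2 ^ b) := by
    refine eq_of_subset_of_card_le (fun z hz => ?_) (card_image_of_injOn hinj).ge
    obtain ⟨y, -, rfl⟩ := mem_image.1 hz
    exact mem_range.2 (Nat.mod_lt _ hp)
  conv_rhs => rw [← him, sum_image hinj]
  exact sum_congr rfl fun y _ => (h.mod _).symm

theorem p_SPLIT :
    S_SPLIT := by
  intro A _ a b Φ Ψ h1 h2
  rw [pow_add, split_sum, sum_mul]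
  refine sum_congr rfl fun x _ => ?_
  rw [← split_perm h2 (f^[a] x) a, mul_sum]
  exact sum_congr rfl fun y _ => by rw [h1, iter_add]

end Pool.Agent.P.MP_fc15d7_nt.HZ
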