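import Pool.Agent.P.MP_fc15d7_nt.HZ.Iface

/-! Step STEP. -/

set_option autoImplicit false
set_option linter.unusedSectionVars false

namespace Pool.Agent.P.MP_fc15d7_nt.HZ

open Finset Filter Topology

theorem p_STEP (hSD : S_SD) (hCONT : S_CONT) :
    S_STEP := by
  intro G _ _ a Z Q hQ hZ hn
  have p2 : ∀ b : G, Pm (ap 2 b * Z) := fun b => (Pm.ap (by norm_num) b).mul hZ
  have h1 : ap 2 (2 • a) * Z - e (2 • a) * (ap 2 a * Z) = -(2 : ℝ)⁻¹ • (e (3 • a) * Z - Z) := by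
    rw [ap_two, ap_two, succ_nsmul a 2, e_add]
    simp only [smul_mul_assoc, mul_smul_comm, neg_smul, ← smul_sub, ← smul_neg]
    congr 1
    ring
  have h2 := hCONT G (ap 2 (2 • a) * Z) (e (2 • a) * (ap 2 a * Z)) Q hQ (p2 _)
    ((Pm.e _).mul (p2 a)) (by
      rw [h1, n1_smul, abs_neg, abs_of_pos (by norm_num)]
      have := n1_nonneg (e (3 • a) * Z - Z)
      linarith)
  rw [HH_e_mul] at h2
  have h3 := sum_le_sum fun y (_ : y ∈ (univ : Finset G)) =>
    hSD (co Z y) (co Z (y - a)) (co Z (y - 2 • a)) (hZ.1 _) (hZ.1 _) (hZ.1 _)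
  have e1 : ∀ b : G, ∑ y, Real.negMulLog (co Z (y - b)) = HH Z := fun b =>
    sum_sub (fun y => Real.negMulLog (co Z y)) b
  have e2 : ∑ y, Real.negMulLog ((co Z y + co Z (y - a)) / 2) = HH (ap 2 a * Z) := by
    simp only [HH, co_ap_two_mul]
  have e3 : ∑ y, Real.negMulLog ((co Z (y - a) + co Z (y - 2 • a)) / 2) = HH (ap 2 a * Z) := by
    rw [← e2, ← sum_sub (fun y => Real.negMulLog ((co Z y + co Z (y - a)) / 2)) a]
    simp only [sub_sub, two_nsmul]
  have e4 : ∑ y, Real.negMulLog ((co Z (y - 2 • a) + co Z y) / 2) = HH (ap 2 (2 • a) * Z) := by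
    simp only [HH, co_ap_two_mul, add_comm]
  have e5 : ∑ y, Real.negMulLog ((co Z y + co Z (y - a) + co Z (y - 2 • a)) / 3) =
      HH (ap 3 a * Z) := by simp only [HH, co_ap_three_mul]
  simp only [sum_add_distrib, ← mul_sum] at h3
  rw [e1, e1, e2, e3, e4, e5] at h3
  have e6 := er_nonneg (G := G) Q
  change (1 - lam) * (HH Z + HH Z + HH Z) + 3 * lam * _ ≤ _ at h3
  linarith

end Pool.Agent.P.MP_fc15d7_nt.HZ
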