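import Pool.Agent.P.MP_fc15d7_nt.HZ.Iface

/-! Step SUB. -/

set_option autoImplicit false
set_option linter.unusedSectionVars false

namespace Pool.Agent.P.MP_fc15d7_nt.HZ

open Finset Filter Topology

/-- twice the Jensen gap -/
noncomputable def subJ (u v : ℝ) : ℝ :=
  2 * Real.negMulLog ((u + v) / 2) - Real.negMulLog u - Real.negMulLog v

theorem sub_nl {x k m : ℝ} (hx : 0 ≤ x) (hk : 0 ≤ k) (hm : 0 < m) (h : 0 < x → 0 < k) :
    Real.negMulLog x ≤ -(x * Real.log k) - x * Real.log m + k * m - x := by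
  rcases hx.eq_or_lt with rfl | hx
  · simpa using mul_nonneg hk hm.le
  have h1 := nl_le hx.le (mul_pos (h hx) hm)
  rw [Real.log_mul (h hx).ne' hm.ne'] at h1
  linarith

theorem sub_ge {u v k l : ℝ} (hu : 0 ≤ u) (hv : 0 ≤ v) (hk : 0 ≤ k) (hl : 0 ≤ l) (h : k + l ≤ 2)
    (h1 : 0 < u → 0 < k) (h2 : 0 < v → 0 < l) : u * Real.log k + v * Real.log l ≤ subJ u v := by
  rcases (add_nonneg hu hv).eq_or_lt with h0 | h0
  · obtain rfl : u = 0 := by linarith
    obtain rfl : v = 0 := by linarith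
    simp [subJ]
  have a1 := sub_nl hu hk (half_pos h0) h1
  have a2 := sub_nl hv hl (half_pos h0) h2
  have a3 := mul_le_mul_of_nonneg_right h (half_pos h0).le
  rw [subJ, Real.negMulLog.eq_1 ((u + v) / 2)]
  linarith

theorem sub_eq {u v : ℝ} (hu : 0 ≤ u) (hv : 0 ≤ v) :
    subJ u v = u * Real.log (u / ((u + v) / 2)) + v * Real.log (v / ((u + v) / 2)) := by
  rcases (add_nonneg hu hv).eq_or_lt with h0 | h0
  · obtain rfl : u = 0 := by linarith
    obtain rfl : v = 0 := by linarith
    simp [subJ]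
  have e : ∀ x : ℝ, x * Real.log (x / ((u + v) / 2)) =
      x * Real.log x - x * Real.log ((u + v) / 2) := fun x => by
    rcases eq_or_ne x 0 with rfl | hx
    · simp
    · rw [Real.log_div hx (half_pos h0).ne', mul_sub]
  rw [e, e]
  simp only [subJ, Real.negMulLog]
  ring

theorem sub_conv {ι : Type} [Fintype ι] (s u v : ι → ℝ) (hs : ∀ z, 0 ≤ s z) (hu : ∀ z, 0 ≤ u z)
    (hv : ∀ z, 0 ≤ v z) : subJ (∑ z, s z * u z) (∑ z, s z * v z) ≤ ∑ z, s z * subJ (u z) (v z) := by
  have hU : 0 ≤ ∑ z, s z * u z := sum_nonneg fun z _ => mul_nonneg (hs z) (hu z)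
  have hV : 0 ≤ ∑ z, s z * v z := sum_nonneg fun z _ => mul_nonneg (hs z) (hv z)
  have lU : ∀ z, s z * u z ≤ ∑ z, s z * u z := fun z =>
    single_le_sum (f := fun z => s z * u z) (fun z _ => mul_nonneg (hs z) (hu z)) (mem_univ z)
  have lV : ∀ z, s z * v z ≤ ∑ z, s z * v z := fun z =>
    single_le_sum (f := fun z => s z * v z) (fun z _ => mul_nonneg (hs z) (hv z)) (mem_univ z)
  rw [sub_eq hU hV]
  generalize hk : (∑ z, s z * u z) / (((∑ z, s z * u z) + ∑ z, s z * v z) / 2) = k
  generalize hl : (∑ z, s z * v z) / (((∑ z, s z * u z) + ∑ z, s z * v z) / 2) = l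
  rw [sum_mul, sum_mul, ← sum_add_distrib]
  refine sum_le_sum fun z _ => ?_
  rcases (hs z).eq_or_lt with h0 | h0
  · simp [← h0]
  rw [mul_assoc, mul_assoc, ← mul_add]
  refine mul_le_mul_of_nonneg_left (sub_ge (hu z) (hv z) (hk ▸ by positivity) (hl ▸ by positivity)
    ?_ (fun h => ?_) fun h => ?_) h0.le
  · rw [← hk, ← hl, ← add_div]
    exact div_le_of_le_mul₀ (by positivity) (by norm_num) (by linarith)
  · have := (mul_pos h0 h).trans_le (lU z)
    rw [← hk]; positivity
  · have := (mul_pos h0 h).trans_le (lV z)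
    rw [← hl]; positivity

theorem sub_HH {G : Type} [AddCommGroup G] [Fintype G] (a : G) (X : GA G) :
    2 * (HH (ap 2 a * X) - HH X) = ∑ y, subJ (co X y) (co X (y - a)) := by
  simp only [subJ, sum_sub_distrib, ← mul_sum, HH, co_ap_two_mul]
  rw [sum_sub (fun y => Real.negMulLog (co X y)) a]
  ring

theorem p_SUB :
    S_SUB := by
  intro G _ _ a S X hS hX
  have h : ∑ y, subJ (co (S * X) y) (co (S * X) (y - a)) ≤ ∑ y, subJ (co X y) (co X (y - a)) := by
    calc ∑ y, subJ (co (S * X) y) (co (S * X) (y - a))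
        ≤ ∑ y, ∑ z, co S z * subJ (co X (y - z)) (co X (y - z - a)) := by
          refine sum_le_sum fun y _ => ?_
          simp only [co_mul, sub_right_comm y a]
          exact sub_conv _ _ _ hS.1 (fun _ => hX.1 _) fun _ => hX.1 _
      _ = _ := by
          rw [sum_comm]
          simp only [← mul_sum]
          have : ∀ z, ∑ y, subJ (co X (y - z)) (co X (y - z - a)) =
              ∑ y, subJ (co X y) (co X (y - a)) :=
            fun z => sum_sub (fun y => subJ (co X y) (co X (y - a))) z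
          simp only [this]
          rw [← sum_mul, hS.2, one_mul]
  rw [← sub_HH, ← sub_HH] at h
  linarith

end Pool.Agent.P.MP_fc15d7_nt.HZ
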