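import Pool.Agent.P.MP_fc15d7_nt.HZ.TMONO
import Pool.Agent.P.MP_fc15d7_nt.HZ.TSUB
import Pool.Agent.P.MP_fc15d7_nt.HZ.TCONT
import Pool.Agent.P.MP_fc15d7_nt.HZ.TSD
import Pool.Agent.P.MP_fc15d7_nt.HZ.TSTEP
import Pool.Agent.P.MP_fc15d7_nt.HZ.TCOST
import Pool.Agent.P.MP_fc15d7_nt.HZ.TINV
import Pool.Agent.P.MP_fc15d7_nt.HZ.TCELL
import Pool.Agent.P.MP_fc15d7_nt.HZ.TPERC
import Pool.Agent.P.MP_fc15d7_nt.HZ.TFLAT
import Pool.Agent.P.MP_fc15d7_nt.HZ.TFANO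
import Pool.Agent.P.MP_fc15d7_nt.HZ.TGAPS
import Pool.Agent.P.MP_fc15d7_nt.HZ.TDIG
import Pool.Agent.P.MP_fc15d7_nt.HZ.TMDS
import Pool.Agent.P.MP_fc15d7_nt.HZ.TINJ
import Pool.Agent.P.MP_fc15d7_nt.HZ.TENTA
import Pool.Agent.P.MP_fc15d7_nt.HZ.TENT
import Pool.Agent.P.MP_fc15d7_nt.HZ.TSPLIT
import Pool.Agent.P.MP_fc15d7_nt.HZ.TEQ
import Pool.Agent.P.MP_fc15d7_nt.HZ.TLAW
import Pool.Agent.P.MP_fc15d7_nt.HZ.TREDA
import Pool.Agent.P.MP_fc15d7_nt.HZ.TRED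
import Pool.Agent.P.MP_fc15d7_nt.HZ.TIND
import Pool.Agent.P.MP_fc15d7_nt.HZ.TMEAN
import Pool.Agent.P.MP_fc15d7_nt.HZ.TLD
import Pool.Agent.P.MP_fc15d7_nt.HZ.TBAD
import Pool.Agent.P.MP_fc15d7_nt.HZ.TCORE
import Pool.Agent.P.MP_fc15d7_nt.HZ.TFINAL

/-! Assembly of the steps. -/

set_option autoImplicit false

namespace Pool.Agent.P.MP_fc15d7_nt.HZ

theorem t_SPLIT : S_SPLIT := p_SPLIT

theorem t_EQ : S_EQ := p_EQ t_SPLIT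

theorem t_LAW : S_LAW := p_LAW t_EQ

theorem t_FANO : S_FANO := p_FANO

theorem t_REDA : S_REDA := p_REDA t_LAW t_FANO

theorem t_MONO : S_MONO := p_MONO

theorem t_SUB : S_SUB := p_SUB

theorem t_CONT : S_CONT := p_CONT

theorem t_SD : S_SD := p_SD

theorem t_STEP : S_STEP := p_STEP t_SD t_CONT

theorem t_COST : S_COST := p_COST

theorem t_INV : S_INV := p_INV

theorem t_CELL : S_CELL := p_CELL t_MONO t_SUB t_CONT t_STEP t_COST t_INV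

theorem t_PERC : S_PERC := p_PERC

theorem t_MDS : S_MDS := p_MDS

theorem t_FLAT : S_FLAT := p_FLAT

theorem t_DIG : S_DIG := p_DIG

theorem t_INJ : S_INJ := p_INJ t_MDS t_FLAT t_DIG t_MONO

theorem t_GAPS : S_GAPS := p_GAPS

theorem t_ENTA : S_ENTA := p_ENTA t_CELL t_PERC t_INJ t_GAPS t_MONO

theorem t_ENT : S_ENT := p_ENT t_ENTA

theorem t_RED : S_RED := p_RED t_REDA t_ENT

theorem t_IND : S_IND := p_IND t_SPLIT

theorem t_LD : S_LD := p_LD t_IND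

theorem t_MEAN : S_MEAN := p_MEAN t_EQ

theorem t_BAD : S_BAD := p_BAD t_LD t_MEAN

theorem t_CORE : S_CORE := p_CORE t_RED t_BAD

theorem t_FINAL : S_FINAL := p_FINAL t_CORE

end Pool.Agent.P.MP_fc15d7_nt.HZ
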