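import Pool.Agent.P.MP_fc15d7_nt.HZ.Iface

/-! Step FANO. -/

set_option autoImplicit false
set_option linter.unusedSectionVars false

namespace Pool.Agent.P.MP_fc15d7_nt.HZ

open Finset Filter Topology

theorem p_FANO :
    S_FANO := by
  classical
  intro G _ _ p B τ hp hB
  have N0 : (0 : ℝ) < Fintype.card G := by exact_mod_cast Fintype.card_pos
  have h1 : ∀ x, Real.negMulLog (co p x) ≤ co p x * Real.log (Fintype.card G) +
      (Fintype.card G : ℝ)⁻¹ - co p x +
      if x ∈ B then Real.exp τ / Fintype.card G - τ * co p x else 0 := fun x => by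
    split_ifs with h
    · have h2 := nl_le (hp.1 x) (div_pos (Real.exp_pos τ) N0)
      rw [Real.log_div (Real.exp_pos τ).ne' N0.ne', Real.log_exp] at h2
      linarith [inv_pos.2 N0]
    · have h2 := nl_le (hp.1 x) (inv_pos.2 N0)
      rw [Real.log_inv] at h2
      linarith
  have h2 := sum_le_sum fun x (_ : x ∈ univ) => h1 x
  rw [sum_add_distrib, sum_sub_distrib, sum_add_distrib, ← sum_mul, hp.2, sum_const, card_univ,
    nsmul_eq_mul, mul_inv_cancel₀ N0.ne', sum_ite_mem, univ_inter, sum_sub_distrib, sum_const,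
    nsmul_eq_mul, ← mul_sum, ← mul_div_assoc] at h2
  have h3 := (div_le_one N0).2 hB
  unfold HH
  linarith

end Pool.Agent.P.MP_fc15d7_nt.HZ
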