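import Pool.Agent.P.MP_fc15d7_nt.HZ.Iface

/-! Step MONO. -/

set_option autoImplicit false
set_option linter.unusedSectionVars false

namespace Pool.Agent.P.MP_fc15d7_nt.HZ

open Finset Filter Topology

theorem p_MONO :
    S_MONO := by
  intro G _ _ A p hA hp
  calc HH p = ∑ y, co A y * ∑ x, Real.negMulLog (co p (x - y)) := by
        simp only [sum_sub fun x => Real.negMulLog (co p x)]
        rw [← sum_mul, hA.2, one_mul, HH]
    _ = ∑ x, ∑ y, co A y * Real.negMulLog (co p (x - y)) := by
        simp only [mul_sum]; exact sum_comm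
    _ ≤ _ := sum_le_sum fun x _ => by
        rw [co_mul]
        exact Real.concaveOn_negMulLog.le_map_sum (fun y _ => hA.1 y) hA.2 fun y _ => hp.1 _

end Pool.Agent.P.MP_fc15d7_nt.HZ
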