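import Pool.Agent.P.MP_fc15d7_nt.HZ.Iface

/-! Step RED. -/

set_option autoImplicit false
set_option linter.unusedSectionVars false

namespace Pool.Agent.P.MP_fc15d7_nt.HZ

open Finset Filter Topology

theorem p_RED (hREDA : S_REDA) (hENT : S_ENT) :
    S_RED := by
  intro c δ ε hc hc1 hδ hε
  have t1 : Tendsto (fun L : ℕ => δ * (L : ℝ)) atTop atTop :=
    tendsto_natCast_atTop_atTop.const_mul_atTop hδ
  have t2 : Tendsto (fun L : ℕ => ε * δ * (L : ℝ)) atTop atTop :=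
    tendsto_natCast_atTop_atTop.const_mul_atTop (mul_pos hε hδ)
  filter_upwards [hENT c (ε * δ / 4) hc hc1 (by positivity), t1.eventually_ge_atTop 2,
    t2.eventually_ge_atTop 4] with L h1 h2 h3 B hB
  have h4 : 2 * (B.card : ℝ) * Real.exp (δ * L - 1) ≤ 2 ^ ⌊c * L⌋₊ := by
    have e1 : Real.exp (-(δ * L)) * Real.exp (δ * L - 1) * Real.exp 1 = 1 := by
      rw [← Real.exp_add, ← Real.exp_add, Real.exp_eq_one_iff]; ring
    have e2 : 2 ≤ Real.exp 1 := by linarith [Real.add_one_le_exp 1]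
    have e3 : 2 * (Real.exp (-(δ * L)) * Real.exp (δ * L - 1)) ≤ 1 := by
      have : 0 ≤ Real.exp (-(δ * L)) * Real.exp (δ * L - 1) := by positivity
      nlinarith
    calc 2 * (B.card : ℝ) * Real.exp (δ * L - 1)
        ≤ 2 * (2 ^ ⌊c * L⌋₊ * Real.exp (-(δ * L))) * Real.exp (δ * L - 1) := by gcongr
      _ = 2 ^ ⌊c * L⌋₊ * (2 * (Real.exp (-(δ * L)) * Real.exp (δ * L - 1))) := by ring
      _ ≤ 2 ^ ⌊c * L⌋₊ * 1 := by gcongr
      _ = _ := mul_one _
  have h5 := hREDA L ⌊c * L⌋₊ B (δ * L - 1) (by linarith) h4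
  rw [← div_le_iff₀ (by positivity)]
  refine le_of_mul_le_mul_left (a := δ * L - 1) (h5.trans ?_) (by linarith)
  nlinarith

end Pool.Agent.P.MP_fc15d7_nt.HZ
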